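import Pool.Agent.Lib_helper14.HM.Rho

open MeasureTheory Finset
open scoped ENNReal

namespace Pool.Agent.HM

variable {G : Type}

theorem Nice.one : Nice (fun _ : G → ℝ => (1 : ℝ≥0∞)) :=
  ⟨measurable_const, fun _ => rfl, fun lam _ _ f g => by simp, fun f g => by simp⟩

theorem Nice.mul {w₁ w₂ : (G → ℝ) → ℝ≥0∞} (h₁ : Nice w₁) (h₂ : Nice w₂) :
    Nice (fun f => w₁ f * w₂ f) := by
  refine ⟨h₁.meas.mul h₂.meas, fun f => by rw [h₁.even, h₂.even], fun lam h0 h1 f g => ?_,
    fun f g => ?_⟩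
  · rw [ENNReal.mul_rpow_of_nonneg _ _ h0.le, ENNReal.mul_rpow_of_nonneg _ _ (by linarith),
      mul_mul_mul_comm]
    exact mul_le_mul' (h₁.lc lam h0 h1 f g) (h₂.lc lam h0 h1 f g)
  · rw [mul_mul_mul_comm, mul_mul_mul_comm (w₁ (f ⊓ g))]
    exact mul_le_mul' (h₁.sm f g) (h₂.sm f g)

theorem Nice.prod {ι : Type} (s : Finset ι) {w : ι → (G → ℝ) → ℝ≥0∞} (h : ∀ i ∈ s, Nice (w i)) :
    Nice (fun f => ∏ i ∈ s, w i f) := by
  classical
  induction s using Finset.induction_on with
  | empty => simpa only [Finset.prod_empty] using Nice.one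
  | insert i s hi ih =>
    simp only [Finset.prod_insert hi]
    exact (h i (Finset.mem_insert_self _ _)).mul (ih fun j hj => h j (Finset.mem_insert_of_mem hj))

theorem nice_edge {ρ : ℝ → ℝ} (hρ : EdgeWeight ρ) (x y : G) :
    Nice (fun f : G → ℝ => ENNReal.ofReal (ρ (f x - f y))) := by
  refine ⟨?_, fun f => ?_, fun lam h0 h1 f g => ?_, fun f g => ?_⟩
  · exact (hρ.measurable.comp ((measurable_pi_apply x).sub (measurable_pi_apply y))).ennreal_ofReal
  · rw [← hρ.even (f x - f y)]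
    simp only [Pi.neg_apply]
    congr 2
    ring
  · rw [ENNReal.ofReal_rpow_of_nonneg (hρ.nonneg _) h0.le,
      ENNReal.ofReal_rpow_of_nonneg (hρ.nonneg _) (by linarith),
      ← ENNReal.ofReal_mul (Real.rpow_nonneg (hρ.nonneg _) _)]
    refine ENNReal.ofReal_le_ofReal ?_
    have := hρ.logconcave (f x - f y) (g x - g y) lam (1 - lam) h0.le (by linarith) (by ring)
    have e : (lam • f + (1 - lam) • g) x - (lam • f + (1 - lam) • g) y =
        lam * (f x - f y) + (1 - lam) * (g x - g y) := by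
      simp only [Pi.add_apply, Pi.smul_apply, smul_eq_mul]; ring
    rw [e]
    exact this
  · rw [← ENNReal.ofReal_mul (hρ.nonneg _), ← ENNReal.ofReal_mul (hρ.nonneg _)]
    exact ENNReal.ofReal_le_ofReal (hρ.sm (f x) (f y) (g x) (g y))

theorem nice_mass (m : ℝ) (x : G) :
    Nice (fun f : G → ℝ => ENNReal.ofReal (Real.exp (-(m ^ 2 * f x ^ 2 / 2)))) := by
  refine ⟨?_, fun f => ?_, fun lam h0 h1 f g => ?_, fun f g => ?_⟩
  · have h : Measurable fun f : G → ℝ => f x := measurable_pi_apply x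
    exact (Real.measurable_exp.comp (((h.pow_const 2).const_mul (m ^ 2)).div_const 2).neg).ennreal_ofReal
  · simp
  · rw [ENNReal.ofReal_rpow_of_nonneg (Real.exp_pos _).le h0.le,
      ENNReal.ofReal_rpow_of_nonneg (Real.exp_pos _).le (by linarith),
      ← ENNReal.ofReal_mul (Real.rpow_nonneg (Real.exp_pos _).le _)]
    refine ENNReal.ofReal_le_ofReal ?_
    rw [← Real.exp_mul, ← Real.exp_mul, ← Real.exp_add]
    refine Real.exp_le_exp.2 ?_
    simp only [Pi.add_apply, Pi.smul_apply, smul_eq_mul]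
    have h2 : 0 ≤ lam * (1 - lam) * (f x - g x) ^ 2 := by
      have : 0 ≤ 1 - lam := by linarith
      positivity
    have h3 : 0 ≤ m ^ 2 := by positivity
    have h4 := mul_nonneg h3 h2
    nlinarith
  · rw [← ENNReal.ofReal_mul (Real.exp_pos _).le, ← ENNReal.ofReal_mul (Real.exp_pos _).le,
      ← Real.exp_add, ← Real.exp_add]
    refine ENNReal.ofReal_le_ofReal (Real.exp_le_exp.2 ?_)
    simp only [Pi.inf_apply, Pi.sup_apply]
    rcases le_total (f x) (g x) with h | h
    · rw [inf_of_le_left h, sup_of_le_right h]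
    · rw [inf_of_le_right h, sup_of_le_left h]
      linarith

theorem nice_wt [AddCommGroup G] [DecidableEq G] {ρ : ℝ → ℝ} (hρ : EdgeWeight ρ) (m : ℝ)
    (stp : Bool → G) (W : Finset G) : Nice (wt ρ m stp W) := by
  unfold wt
  exact (Nice.prod _ fun p _ => nice_edge hρ _ _).mul (Nice.prod _ fun x _ => nice_mass m x)

/-- composition with a linear map of coordinates -/
theorem Nice.even_lc_comp {G' : Type} {w : (G → ℝ) → ℝ≥0∞} (h : Nice w)
    (M : (G' → ℝ) →ₗ[ℝ] (G → ℝ)) (hM : Measurable M) :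
    (Measurable fun f => w (M f)) ∧ (∀ f, w (M (-f)) = w (M f)) ∧
      ∀ lam : ℝ, 0 < lam → lam < 1 → ∀ f g, w (M f) ^ lam * w (M g) ^ (1 - lam) ≤
        w (M (lam • f + (1 - lam) • g)) := by
  refine ⟨h.meas.comp hM, fun f => by rw [map_neg, h.even], fun lam h0 h1 f g => ?_⟩
  rw [map_add, map_smul, map_smul]
  exact h.lc lam h0 h1 _ _

end Pool.Agent.HM
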