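import Pool.Agent.Lib_helper69.HM.Defs
import Pool.Agent.Lib_helper14.HMT.FF

open MeasureTheory Finset
open scoped ENNReal

namespace Pool.Agent.HM

/-- four functions theorem on the line -/
theorem four1 {f₁ f₂ f₃ f₄ : ℝ → ℝ≥0∞} (h₁ : Measurable f₁) (h₂ : Measurable f₂)
    (h₃ : Measurable f₃) (h₄ : Measurable f₄)
    (h : ∀ a b, f₁ a * f₂ b ≤ f₃ (min a b) * f₄ (max a b)) :
    (∫⁻ t, f₁ t) * (∫⁻ t, f₂ t) ≤ (∫⁻ t, f₃ t) * (∫⁻ t, f₄ t) := by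
  rw [mul_comm (∫⁻ t, f₃ t)]
  refine HMT.ff_one h₁ h₂ h₄ h₃ fun a b => ?_
  rw [mul_comm (f₄ (a ⊔ b))]
  exact h a b

/-- four functions theorem for partial integrals -/
theorem four_lm {G : Type} [DecidableEq G] {f₁ f₂ f₃ f₄ : (G → ℝ) → ℝ≥0∞} (h₁ : Measurable f₁)
    (h₂ : Measurable f₂) (h₃ : Measurable f₃) (h₄ : Measurable f₄)
    (h : ∀ a b, f₁ a * f₂ b ≤ f₃ (a ⊓ b) * f₄ (a ⊔ b)) (W : Finset G) (ξ η : G → ℝ) :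
    lm W f₁ ξ * lm W f₂ η ≤ lm W f₃ (ξ ⊓ η) * lm W f₄ (ξ ⊔ η) := by
  rw [mul_comm (lm W f₃ (ξ ⊓ η))]
  refine HMT.ff W h₁ h₂ h₄ h₃ (fun a b => ?_) ξ η
  rw [mul_comm (f₄ (a ⊔ b))]
  exact h a b

end Pool.Agent.HM
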