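import Pool.Agent.Lib_helper14.HM.A4
import Pool.Agent.Lib_helper14.HM.N1
import Pool.Agent.Lib_helper12.HM.A5

open MeasureTheory Finset
open scoped ENNReal

namespace Pool.Agent.HM

variable {G : Type} [DecidableEq G]

/-- the partition function is log-concave in the boundary values -/
theorem lm_lc {w : (G → ℝ) → ℝ≥0∞} (hw : Nice w) (W : Finset G) {lam : ℝ} (h0 : 0 < lam)
    (h1 : lam < 1) (ξ η : G → ℝ) :
    lm W w ξ ^ lam * lm W w η ^ (1 - lam) ≤ lm W w (lam • ξ + (1 - lam) • η) :=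
  pl_lm hw.meas hw.meas hw.meas h0 h1 (hw.lc lam h0 h1) W ξ η

/-- ... and decreasing along rays -/
theorem lm_le_smul {w : (G → ℝ) → ℝ≥0∞} (hw : Nice w) (W : Finset G) (ξ : G → ℝ) {c : ℝ}
    (h0 : 0 ≤ c) (h1 : c ≤ 1) : lm W w ξ ≤ lm W w (c • ξ) := by
  rcases h1.eq_or_lt with h | h
  · rw [h, one_smul]
  have hneg : lm W w (-ξ) = lm W w ξ := by
    rw [← lm_neg hw.meas]
    simp only [hw.even]
  have := lm_lc hw W (lam := (1 + c) / 2) (by linarith) (by linarith) ξ (-ξ)
  rw [hneg] at this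
  have e : ((1 + c) / 2) • ξ + (1 - (1 + c) / 2) • (-ξ) = c • ξ := by
    ext v
    simp only [Pi.add_apply, Pi.smul_apply, Pi.neg_apply, smul_eq_mul]
    ring
  rw [e] at this
  refine le_trans (le_of_eq ?_) this
  rcases eq_or_ne (lm W w ξ) 0 with h2 | h2
  · rw [h2, ENNReal.zero_rpow_of_pos (by linarith), zero_mul]
  · rcases eq_or_ne (lm W w ξ) ∞ with h3 | h3
    · rw [h3, ENNReal.top_rpow_of_pos (by linarith), ENNReal.top_rpow_of_pos (by linarith)]
      simp
    · rw [← ENNReal.rpow_add _ _ h2 h3]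
      simp

/-- the partition function is largest for zero boundary values -/
theorem lm_le_zero {w : (G → ℝ) → ℝ≥0∞} (hw : Nice w) (W : Finset G) (ξ : G → ℝ) :
    lm W w ξ ≤ lm W w 0 := by
  have := lm_le_smul hw W ξ (c := 0) le_rfl zero_le_one
  rwa [zero_smul] at this

end Pool.Agent.HM
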