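import Pool.Agent.Lib_helper69.HM.Defs
import Pool.Agent.Lib_helper73.Rigid.PL

open MeasureTheory Finset Filter
open scoped ENNReal Topology

namespace Pool.Agent.HM

/-- Prékopa-Leindler for finite-valued bounded functions with values in `[0, ∞)` -/
theorem pl1_bdd {f g h : ℝ → ℝ≥0∞} (hf : Measurable f) (hg : Measurable g) (hh : Measurable h)
    {lam : ℝ} (h0 : 0 < lam) (h1 : lam < 1) {K : ℝ} (hfK : ∀ t, f t ≤ ENNReal.ofReal K)
    (hgK : ∀ t, g t ≤ ENNReal.ofReal K)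
    (H : ∀ a b, f a ^ lam * g b ^ (1 - lam) ≤ h (lam * a + (1 - lam) * b)) :
    (∫⁻ t, f t) ^ lam * (∫⁻ t, g t) ^ (1 - lam) ≤ ∫⁻ t, h t := by
  have hmu : 0 < 1 - lam := by linarith
  by_cases hfz : ∀ x, f x = 0
  · simp [hfz, ENNReal.zero_rpow_of_pos h0]
  by_cases hgz : ∀ x, g x = 0
  · simp [hgz, ENNReal.zero_rpow_of_pos hmu]
  push Not at hfz hgz
  obtain ⟨x0, hx0⟩ := hfz
  obtain ⟨y0, hy0⟩ := hgz
  have hft : ∀ t, f t ≠ ∞ := fun t => ne_top_of_le_ne_top ENNReal.ofReal_ne_top (hfK t)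
  have hgt : ∀ t, g t ≠ ∞ := fun t => ne_top_of_le_ne_top ENNReal.ofReal_ne_top (hgK t)
  set F : ℝ → ℝ := fun x => (f x).toReal with hF
  set G : ℝ → ℝ := fun x => (g x).toReal with hG
  have hFb : BddAbove (Set.range F) := ⟨(ENNReal.ofReal K).toReal, by
    rintro _ ⟨x, rfl⟩; exact ENNReal.toReal_mono ENNReal.ofReal_ne_top (hfK x)⟩
  have hGb : BddAbove (Set.range G) := ⟨(ENNReal.ofReal K).toReal, by
    rintro _ ⟨x, rfl⟩; exact ENNReal.toReal_mono ENNReal.ofReal_ne_top (hgK x)⟩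
  set a := sSup (Set.range F) with ha
  set b := sSup (Set.range G) with hb
  have hFa : ∀ x, F x ≤ a := fun x => le_csSup hFb ⟨x, rfl⟩
  have hGb' : ∀ x, G x ≤ b := fun x => le_csSup hGb ⟨x, rfl⟩
  have ha0 : 0 < a := lt_of_lt_of_le (ENNReal.toReal_pos hx0 (hft x0)) (hFa x0)
  have hb0 : 0 < b := lt_of_lt_of_le (ENNReal.toReal_pos hy0 (hgt y0)) (hGb' y0)
  set k := a ^ lam * b ^ (1 - lam) with hk
  have hk0 : 0 < k := by positivity
  set h' : ℝ → ℝ≥0∞ := fun x => min (h x) (ENNReal.ofReal k) with hh'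
  have hh't : ∀ x, h' x ≠ ∞ := fun x => ne_top_of_le_ne_top ENNReal.ofReal_ne_top (min_le_right _ _)
  set Hr : ℝ → ℝ := fun x => (h' x).toReal with hHr
  have mF : Measurable F := hf.ennreal_toReal
  have mG : Measurable G := hg.ennreal_toReal
  have mH : Measurable Hr := (hh.min measurable_const).ennreal_toReal
  have hF0 : ∀ x, 0 ≤ F x := fun x => ENNReal.toReal_nonneg
  have hG0 : ∀ x, 0 ≤ G x := fun x => ENNReal.toReal_nonneg
  have hH0 : ∀ x, 0 ≤ Hr x := fun x => ENNReal.toReal_nonneg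
  have hineq : ∀ x y, F x ^ lam * G y ^ (1 - lam) ≤ Hr (lam * x + (1 - lam) * y) := by
    intro x y
    have e : F x ^ lam * G y ^ (1 - lam) = (f x ^ lam * g y ^ (1 - lam)).toReal := by
      rw [ENNReal.toReal_mul, ENNReal.toReal_rpow, ENNReal.toReal_rpow]
    rw [e]
    refine ENNReal.toReal_mono (hh't _) (le_min (H x y) ?_)
    have e2 : f x ^ lam * g y ^ (1 - lam) = ENNReal.ofReal (F x ^ lam * G y ^ (1 - lam)) := by
      rw [e, ENNReal.ofReal_toReal]
      exact ENNReal.mul_ne_top (ENNReal.rpow_ne_top_of_nonneg h0.le (hft x))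
        (ENNReal.rpow_ne_top_of_nonneg hmu.le (hgt y))
    rw [e2]
    refine ENNReal.ofReal_le_ofReal ?_
    exact mul_le_mul (Real.rpow_le_rpow (hF0 x) (hFa x) h0.le)
      (Real.rpow_le_rpow (hG0 y) (hGb' y) hmu.le) (Real.rpow_nonneg (hG0 y) _)
      (Real.rpow_nonneg ha0.le _)
  have main := Rigid.pl_norm (F := fun x => F x / a) (G := fun x => G x / b) (H := fun x => Hr x / k)
    (mF.div_const a) (mG.div_const b) (mH.div_const k)
    (fun x => div_nonneg (hF0 x) ha0.le) (fun x => div_nonneg (hG0 x) hb0.le)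
    (fun x => div_nonneg (hH0 x) hk0.le)
    (fun x => (div_le_one ha0).2 (hFa x)) (fun x => (div_le_one hb0).2 (hGb' x))
    (by
      intro t ht
      have : a * t < a := by nlinarith
      obtain ⟨_, ⟨x, rfl⟩, hx⟩ := exists_lt_of_lt_csSup (Set.range_nonempty F) this
      exact ⟨x, by rw [lt_div_iff₀ ha0]; linarith⟩)
    (by
      intro t ht
      have : b * t < b := by nlinarith
      obtain ⟨_, ⟨x, rfl⟩, hx⟩ := exists_lt_of_lt_csSup (Set.range_nonempty G) this
      exact ⟨x, by rw [lt_div_iff₀ hb0]; linarith⟩)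
    h0 hmu (by ring)
    (by
      intro x y
      rw [Real.div_rpow (hF0 x) ha0.le, Real.div_rpow (hG0 y) hb0.le, div_mul_div_comm]
      exact div_le_div_of_nonneg_right (hineq x y) hk0.le)
  have conv : ∀ (u : ℝ → ℝ≥0∞) (U : ℝ → ℝ) (c : ℝ), Measurable u → 0 < c →
      (∀ x, ENNReal.ofReal (U x) = u x) →
      ∫⁻ x, ENNReal.ofReal (U x / c) = (∫⁻ x, u x) / ENNReal.ofReal c := by
    intro u U c mu hc hu
    rw [ENNReal.div_eq_inv_mul, ← lintegral_const_mul _ mu]
    refine lintegral_congr fun x => ?_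
    rw [ENNReal.ofReal_div_of_pos hc, hu, ENNReal.div_eq_inv_mul]
  rw [conv f F a hf ha0 (fun x => ENNReal.ofReal_toReal (hft x)),
    conv g G b hg hb0 (fun x => ENNReal.ofReal_toReal (hgt x)),
    conv h' Hr k (hh.min measurable_const) hk0 (fun x => ENNReal.ofReal_toReal (hh't x))] at main
  have main2 := main.trans (ENNReal.div_le_div_right
    (lintegral_mono fun x => min_le_left (h x) (ENNReal.ofReal k)) (ENNReal.ofReal k))
  by_cases hht : ∫⁻ x, h x = ∞
  · rw [hht]; exact le_top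
  have hR : (∫⁻ x, h x) / ENNReal.ofReal k ≠ ∞ :=
    ENNReal.div_ne_top hht (by simpa using hk0)
  set A := (∫⁻ x, f x) / ENNReal.ofReal a with hA
  set B := (∫⁻ x, g x) / ENNReal.ofReal b with hB
  have hsum : ENNReal.ofReal lam * A + ENNReal.ofReal (1 - lam) * B ≠ ∞ :=
    ne_top_of_le_ne_top hR main2
  have hAt : A ≠ ∞ := by
    intro h
    apply hsum
    rw [h, ENNReal.mul_top (by simpa using h0), top_add]
  have hBt : B ≠ ∞ := by
    intro h
    apply hsum
    rw [h, ENNReal.mul_top (by simpa using h1), add_top]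
  have amgm : A ^ lam * B ^ (1 - lam) ≤ ENNReal.ofReal lam * A + ENNReal.ofReal (1 - lam) * B := by
    have := Real.geom_mean_le_arith_mean2_weighted h0.le hmu.le (ENNReal.toReal_nonneg (a := A))
      (ENNReal.toReal_nonneg (a := B)) (by ring)
    have e1 : A ^ lam * B ^ (1 - lam) = ENNReal.ofReal (A.toReal ^ lam * B.toReal ^ (1 - lam)) := by
      rw [ENNReal.toReal_rpow, ENNReal.toReal_rpow, ← ENNReal.toReal_mul, ENNReal.ofReal_toReal]
      exact ENNReal.mul_ne_top (ENNReal.rpow_ne_top_of_nonneg h0.le hAt)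
        (ENNReal.rpow_ne_top_of_nonneg hmu.le hBt)
    have e2 : ENNReal.ofReal lam * A + ENNReal.ofReal (1 - lam) * B =
        ENNReal.ofReal (lam * A.toReal + (1 - lam) * B.toReal) := by
      rw [ENNReal.ofReal_add (by positivity) (by positivity), ENNReal.ofReal_mul h0.le,
        ENNReal.ofReal_mul hmu.le, ENNReal.ofReal_toReal hAt, ENNReal.ofReal_toReal hBt]
    rw [e1, e2]
    exact ENNReal.ofReal_le_ofReal this
  have fin := amgm.trans main2
  have ek : ENNReal.ofReal k = ENNReal.ofReal a ^ lam * ENNReal.ofReal b ^ (1 - lam) := by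
    rw [hk, ENNReal.ofReal_mul (by positivity), ENNReal.ofReal_rpow_of_pos ha0,
      ENNReal.ofReal_rpow_of_pos hb0]
  have hkne : ENNReal.ofReal k ≠ 0 := by simpa using hk0
  have step : (∫⁻ x, f x) ^ lam * (∫⁻ x, g x) ^ (1 - lam) = A ^ lam * B ^ (1 - lam) * ENNReal.ofReal k := by
    rw [hA, hB, ENNReal.div_rpow_of_nonneg _ _ h0.le, ENNReal.div_rpow_of_nonneg _ _ hmu.le, ek]
    have hane : ENNReal.ofReal a ^ lam ≠ 0 := by
      rw [ENNReal.ofReal_rpow_of_pos ha0]; simpa using Real.rpow_pos_of_pos ha0 lam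
    have hbne : ENNReal.ofReal b ^ (1 - lam) ≠ 0 := by
      rw [ENNReal.ofReal_rpow_of_pos hb0]; simpa using Real.rpow_pos_of_pos hb0 (1 - lam)
    have hat : ENNReal.ofReal a ^ lam ≠ ∞ :=
      ENNReal.rpow_ne_top_of_nonneg h0.le ENNReal.ofReal_ne_top
    have hbt : ENNReal.ofReal b ^ (1 - lam) ≠ ∞ :=
      ENNReal.rpow_ne_top_of_nonneg hmu.le ENNReal.ofReal_ne_top
    rw [mul_mul_mul_comm, ENNReal.div_mul_cancel hane hat, ENNReal.div_mul_cancel hbne hbt]
  rw [step]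
  calc A ^ lam * B ^ (1 - lam) * ENNReal.ofReal k
      ≤ (∫⁻ x, h x) / ENNReal.ofReal k * ENNReal.ofReal k := by gcongr
    _ = ∫⁻ x, h x := ENNReal.div_mul_cancel hkne ENNReal.ofReal_ne_top

/-- Prékopa-Leindler inequality on the line, all measurable functions with values in `[0, ∞]` -/
theorem pl1 {f g h : ℝ → ℝ≥0∞} (hf : Measurable f) (hg : Measurable g) (hh : Measurable h)
    {lam : ℝ} (h0 : 0 < lam) (h1 : lam < 1)
    (H : ∀ a b, f a ^ lam * g b ^ (1 - lam) ≤ h (lam * a + (1 - lam) * b)) :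
    (∫⁻ t, f t) ^ lam * (∫⁻ t, g t) ^ (1 - lam) ≤ ∫⁻ t, h t := by
  have hmu : 0 < 1 - lam := by linarith
  by_cases hfz : ∫⁻ t, f t = 0
  · rw [hfz, ENNReal.zero_rpow_of_pos h0, zero_mul]; exact bot_le
  by_cases hgz : ∫⁻ t, g t = 0
  · rw [hgz, ENNReal.zero_rpow_of_pos hmu, mul_zero]; exact bot_le
  have key : ∀ k : ℕ, (∫⁻ t, min (f t) (ENNReal.ofReal k)) ^ lam *
      (∫⁻ t, min (g t) (ENNReal.ofReal k)) ^ (1 - lam) ≤ ∫⁻ t, h t := by
    intro k
    refine pl1_bdd (K := k) (hf.min measurable_const) (hg.min measurable_const) hh h0 h1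
      (fun t => min_le_right _ _) (fun t => min_le_right _ _) fun a b => ?_
    refine le_trans ?_ (H a b)
    gcongr
    · exact min_le_left _ _
    · exact min_le_left _ _
  have lim : ∀ {u : ℝ → ℝ≥0∞}, Measurable u →
      Tendsto (fun k : ℕ => ∫⁻ t, min (u t) (ENNReal.ofReal k)) atTop (𝓝 (∫⁻ t, u t)) := by
    intro u mu
    refine lintegral_tendsto_of_tendsto_of_monotone (fun k => (mu.min measurable_const).aemeasurable)
      (Eventually.of_forall fun t => ?_) (Eventually.of_forall fun t => ?_)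
    · intro i j hij
      exact min_le_min le_rfl (ENNReal.ofReal_le_ofReal (by exact_mod_cast hij))
    · have e : u t = min (u t) ∞ := by simp
      conv => rhs; rw [e]
      refine tendsto_const_nhds.min ?_
      simp only [ENNReal.ofReal_natCast]
      exact ENNReal.tendsto_nat_nhds_top
  have l1 : Tendsto (fun k : ℕ => (∫⁻ t, min (f t) (ENNReal.ofReal k)) ^ lam) atTop
      (𝓝 ((∫⁻ t, f t) ^ lam)) := (ENNReal.continuous_rpow_const.tendsto _).comp (lim hf)
  have l2 : Tendsto (fun k : ℕ => (∫⁻ t, min (g t) (ENNReal.ofReal k)) ^ (1 - lam)) atTop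
      (𝓝 ((∫⁻ t, g t) ^ (1 - lam))) := (ENNReal.continuous_rpow_const.tendsto _).comp (lim hg)
  have hfz' : (∫⁻ t, f t) ^ lam ≠ 0 := by
    intro h; exact hfz ((ENNReal.rpow_eq_zero_iff_of_pos h0).1 h)
  have hgz' : (∫⁻ t, g t) ^ (1 - lam) ≠ 0 := by
    intro h; exact hgz ((ENNReal.rpow_eq_zero_iff_of_pos hmu).1 h)
  exact le_of_tendsto (ENNReal.Tendsto.mul l1 (Or.inl hfz') l2 (Or.inl hgz'))
    (Eventually.of_forall key)

end Pool.Agent.HM
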