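import Pool.Agent.Lib_helper14.HM.A3

open MeasureTheory Finset
open scoped ENNReal

namespace Pool.Agent.HM

/-- Prékopa-Leindler inequality for partial integrals -/
theorem pl_lm {G : Type} [DecidableEq G] {f g h : (G → ℝ) → ℝ≥0∞} (hf : Measurable f)
    (hg : Measurable g) (hh : Measurable h) {lam : ℝ} (h0 : 0 < lam) (h1 : lam < 1)
    (H : ∀ a b, f a ^ lam * g b ^ (1 - lam) ≤ h (lam • a + (1 - lam) • b))
    (W : Finset G) (ξ η : G → ℝ) :
    lm W f ξ ^ lam * lm W g η ^ (1 - lam) ≤ lm W h (lam • ξ + (1 - lam) • η) := by
  classical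
  induction W using Finset.induction_on generalizing ξ η with
  | empty => simpa only [lm, lmarginal_empty] using H ξ η
  | insert i s hi ih =>
    unfold lm
    rw [lmarginal_insert _ hf hi, lmarginal_insert _ hg hi, lmarginal_insert _ hh hi]
    have mm : ∀ {f : (G → ℝ) → ℝ≥0∞}, Measurable f → ∀ z : G → ℝ,
        Measurable fun a : ℝ => (∫⋯∫⁻_s, f) (Function.update z i a) :=
      fun mf z => (mf.lmarginal _).comp (measurable_update z)
    refine pl1 (mm hf ξ) (mm hg η) (mm hh (lam • ξ + (1 - lam) • η)) h0 h1 fun a b => ?_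
    have e : lam • Function.update ξ i a + (1 - lam) • Function.update η i b =
        Function.update (lam • ξ + (1 - lam) • η) i (lam * a + (1 - lam) * b) := by
      ext j
      by_cases hj : j = i
      · subst hj; simp
      · simp [hj]
    have := ih (Function.update ξ i a) (Function.update η i b)
    rwa [e] at this

end Pool.Agent.HM
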