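import Pool.Agent.Lib_helper69.HM.G2
import Pool.Agent.Lib_helper69.HM.D1
import Pool.Agent.Lib_helper69.HM.A5
import Pool.Agent.Lib_helper69.HM.A2
import Pool.Agent.Lib_helper69.HM.N1

open MeasureTheory Finset
open scoped ENNReal

namespace Pool.Agent.HM

/-- Comparison of the field with mass and boundary values `≤ c`, `c ≥ 0`, with `c +` the field
with zero boundary values (whose mass is centred at `c`). -/
theorem compare_shift {G : Type} [AddCommGroup G] [DecidableEq G] {ρ : ℝ → ℝ}
    (hρ : EdgeWeight ρ) (m : ℝ) (stp : Bool → G) (W : Finset G) {c : ℝ} (hc : 0 ≤ c)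
    (ξ : G → ℝ) (hξ : ∀ p ∈ edges stp W, (p.1 ∉ W → ξ p.1 ≤ c) ∧
      (p.1 + stp p.2 ∉ W → ξ (p.1 + stp p.2) ≤ c)) {x : G} (hx : x ∈ W) (s : ℝ) :
    lm W (Set.indicator {f | f x < s} (wt ρ m stp W)) 0 * lm W (wt ρ m stp W) ξ ≤
      lm W (wt ρ m stp W) 0 * lm W (Set.indicator {f | f x < c + s} (wt ρ m stp W)) ξ := by
  set w := wt ρ m stp W with hw
  have mw : Measurable w := (nice_wt hρ m stp W).meas
  obtain ⟨d, hd⟩ : ∃ d : G → ℝ, d = fun _ => -c := ⟨_, rfl⟩
  have hdv : ∀ v, d v = -c := fun v => by rw [hd]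
  set w2 : (G → ℝ) → ℝ≥0∞ := fun f => w (f + d) with hw2
  have madd : Measurable fun f : G → ℝ => f + d := measurable_id.add_const _
  have mw2 : Measurable w2 := mw.comp madd
  set A : Set (G → ℝ) := {f | f x < c + s} with hA
  have mA : MeasurableSet A := measurableSet_lt (measurable_pi_apply x) measurable_const
  set ξ' : G → ℝ := fun v => min (ξ v) c with hξ'
  -- the cross condition
  have cross : ∀ a b : G → ℝ, w a * w2 b ≤ w (a ⊓ b) * w2 (a ⊔ b) := by
    intro a b
    simp only [hw2, hw, wt]
    have e1 : ∀ (f : G → ℝ) (p : G × Bool), (f + d) (p.1 + stp p.2) - (f + d) p.1 =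
        f (p.1 + stp p.2) - f p.1 := by
      intro f p; simp only [Pi.add_apply, hdv]; ring
    simp only [e1]
    have h1 : (∏ p ∈ edges stp W, ENNReal.ofReal (ρ (a (p.1 + stp p.2) - a p.1))) *
        (∏ p ∈ edges stp W, ENNReal.ofReal (ρ (b (p.1 + stp p.2) - b p.1))) ≤
        (∏ p ∈ edges stp W, ENNReal.ofReal (ρ ((a ⊓ b) (p.1 + stp p.2) - (a ⊓ b) p.1))) *
        (∏ p ∈ edges stp W, ENNReal.ofReal (ρ ((a ⊔ b) (p.1 + stp p.2) - (a ⊔ b) p.1))) := by
      rw [← Finset.prod_mul_distrib, ← Finset.prod_mul_distrib]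
      refine Finset.prod_le_prod' fun p _ => ?_
      exact (nice_edge hρ (p.1 + stp p.2) p.1).sm a b
    have h2 : (∏ x ∈ W, ENNReal.ofReal (Real.exp (-(m ^ 2 * a x ^ 2 / 2)))) *
        (∏ x ∈ W, ENNReal.ofReal (Real.exp (-(m ^ 2 * (b + d) x ^ 2 / 2)))) ≤
        (∏ x ∈ W, ENNReal.ofReal (Real.exp (-(m ^ 2 * (a ⊓ b) x ^ 2 / 2)))) *
        (∏ x ∈ W, ENNReal.ofReal (Real.exp (-(m ^ 2 * ((a ⊔ b) + d) x ^ 2 / 2)))) := by
      rw [← Finset.prod_mul_distrib, ← Finset.prod_mul_distrib]
      refine Finset.prod_le_prod' fun y _ => ?_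
      rw [← ENNReal.ofReal_mul (Real.exp_pos _).le, ← ENNReal.ofReal_mul (Real.exp_pos _).le,
        ← Real.exp_add, ← Real.exp_add]
      refine ENNReal.ofReal_le_ofReal (Real.exp_le_exp.2 ?_)
      simp only [Pi.add_apply, Pi.inf_apply, Pi.sup_apply, hdv]
      rcases le_total (a y) (b y) with h | h
      · rw [inf_of_le_left h, sup_of_le_right h]
      · rw [inf_of_le_right h, sup_of_le_left h]
        have h3 : 0 ≤ m ^ 2 * (c * (a y - b y)) :=
          mul_nonneg (sq_nonneg m) (mul_nonneg hc (sub_nonneg.2 h))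
        nlinarith
    calc _ = ((∏ p ∈ edges stp W, ENNReal.ofReal (ρ (a (p.1 + stp p.2) - a p.1))) *
          (∏ p ∈ edges stp W, ENNReal.ofReal (ρ (b (p.1 + stp p.2) - b p.1)))) *
          ((∏ x ∈ W, ENNReal.ofReal (Real.exp (-(m ^ 2 * a x ^ 2 / 2)))) *
          (∏ x ∈ W, ENNReal.ofReal (Real.exp (-(m ^ 2 * (b + d) x ^ 2 / 2))))) :=
          mul_mul_mul_comm _ _ _ _
      _ ≤ _ := mul_le_mul' h1 h2
      _ = _ := mul_mul_mul_comm _ _ _ _
  have m1 : Measurable (A.indicator w) := mw.indicator mA
  have m2 : Measurable (A.indicator w2) := mw2.indicator mA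
  have key := four_lm mw m2 m1 mw2 (fun a b => by
    by_cases hb : b ∈ A
    · have hab : a ⊓ b ∈ A := by
        have hb' : b x < c + s := hb
        show (a ⊓ b) x < c + s
        exact lt_of_le_of_lt inf_le_right hb'
      rw [Set.indicator_of_mem hb, Set.indicator_of_mem hab]
      exact cross a b
    · rw [Set.indicator_of_notMem hb, mul_zero]; exact bot_le) W ξ' (fun _ => c)
  have hle : ξ' ≤ fun _ => c := fun v => min_le_right _ _
  rw [inf_of_le_left hle, sup_of_le_right hle] at key
  -- translate back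
  have t1 : lm W w2 (fun _ => c) = lm W w 0 := by
    rw [hw2, lm_add mw W d (fun _ => c)]
    congr 1
    funext v
    simp [hdv]
  have t2 : lm W (A.indicator w2) (fun _ => c) = lm W (Set.indicator {f | f x < s} w) 0 := by
    have e : A.indicator w2 = fun f => (Set.indicator {f | f x < s} w) (f + d) := by
      funext f
      by_cases hf : f ∈ A
      · have hf' : (f + d) ∈ {f : G → ℝ | f x < s} := by
          have : f x < c + s := hf
          show (f + d) x < s
          simp only [Pi.add_apply, hdv]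
          linarith
        rw [Set.indicator_of_mem hf, Set.indicator_of_mem hf']
      · have hf' : (f + d) ∉ {f : G → ℝ | f x < s} := by
          intro h
          have h' : (f + d) x < s := h
          simp only [Pi.add_apply, hdv] at h'
          exact hf (show f x < c + s by linarith)
        rw [Set.indicator_of_notMem hf, Set.indicator_of_notMem hf']
    rw [e, lm_add (mw.indicator (measurableSet_lt (measurable_pi_apply x) measurable_const)) W
      d (fun _ => c)]
    congr 1
    funext v
    simp [hdv]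
  -- clipping does not matter
  set B : Finset G := W ∪ ((edges stp W).image (fun p => p.1) ∪
    (edges stp W).image (fun p => p.1 + stp p.2)) with hB
  have hdep : ∀ f g : G → ℝ, (∀ x ∈ B, f x = g x) → w f = w g := by
    intro f g h
    refine wt_congr ρ m stp W (fun y hy => h y (by simp [hB, hy])) fun p hp => ⟨?_, ?_⟩
    · exact h _ (mem_union_right _ (mem_union_left _ (mem_image_of_mem _ hp)))
    · exact h _ (mem_union_right _ (mem_union_right _
        (mem_image_of_mem (fun p : G × Bool => p.1 + stp p.2) hp)))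
  have hclip : ∀ y ∈ B, y ∉ W → ξ y = ξ' y := by
    intro y hy hyW
    simp only [hB, mem_union, mem_image] at hy
    rcases hy with hy | ⟨p, hp, rfl⟩ | ⟨p, hp, rfl⟩
    · exact absurd hy hyW
    · exact (min_eq_left ((hξ p hp).1 hyW)).symm
    · exact (min_eq_left ((hξ p hp).2 hyW)).symm
  have t3 : lm W w ξ = lm W w ξ' := lm_congr_on hdep W hclip
  have t4 : lm W (A.indicator w) ξ = lm W (A.indicator w) ξ' := by
    refine lm_congr_on (A := B) (fun f g h => ?_) W hclip
    have hxB : x ∈ B := by simp [hB, hx]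
    have hfg : f x = g x := h x hxB
    by_cases hf : f ∈ A
    · have hg : g ∈ A := by
        have : f x < c + s := hf
        show g x < c + s
        rw [← hfg]; exact this
      rw [Set.indicator_of_mem hf, Set.indicator_of_mem hg, hdep f g h]
    · have hg : g ∉ A := by
        intro h'
        have : g x < c + s := h'
        exact hf (show f x < c + s by rw [hfg]; exact this)
      rw [Set.indicator_of_notMem hf, Set.indicator_of_notMem hg]
  rw [t3, t4, ← t1, ← t2, mul_comm, mul_comm (lm W w2 fun _ => c)]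
  exact key

end Pool.Agent.HM
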