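import Pool.Agent.Lib_helper14.HM.Z4

open MeasureTheory Finset
open scoped ENNReal

namespace Pool.Agent.HM

/-- Chebyshev's association inequality for `ψ` increasing and `u` decreasing in `|t|` -/
theorem cheb1 {κ ψ u : ℝ → ℝ≥0∞} (hκ : Measurable κ) (hψ : Measurable ψ) (hu : Measurable u)
    (mψ : ∀ s t : ℝ, |s| ≤ |t| → ψ s ≤ ψ t) (mu : ∀ s t : ℝ, |s| ≤ |t| → u t ≤ u s) :
    (∫⁻ t, ψ t * (κ t * u t)) * (∫⁻ t, κ t) ≤ (∫⁻ t, ψ t * κ t) * (∫⁻ t, κ t * u t) := by
  have key : ∀ s t : ℝ, ψ s * (κ s * u s) * κ t + κ s * (ψ t * (κ t * u t)) ≤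
      ψ s * κ s * (κ t * u t) + κ s * u s * (ψ t * κ t) := by
    have main : ∀ s t : ℝ, |s| ≤ |t| → ψ s * u s + ψ t * u t ≤ ψ s * u t + ψ t * u s := by
      intro s t h
      obtain ⟨p, hp⟩ := exists_add_of_le (mψ s t h)
      obtain ⟨q, hq⟩ := exists_add_of_le (mu s t h)
      rw [hp, hq]
      have e : ψ s * u t + (ψ s + p) * (u t + q) = ψ s * (u t + q) + (ψ s + p) * u t + p * q := by
        ring
      rw [e]
      exact le_self_add
    intro s t
    have h2 : ψ s * u s + ψ t * u t ≤ ψ s * u t + ψ t * u s := by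
      rcases le_total |s| |t| with h | h
      · exact main s t h
      · have := main t s h
        rw [add_comm (ψ s * u s), add_comm (ψ s * u t)]
        exact this
    calc ψ s * (κ s * u s) * κ t + κ s * (ψ t * (κ t * u t))
        = κ s * κ t * (ψ s * u s + ψ t * u t) := by ring
      _ ≤ κ s * κ t * (ψ s * u t + ψ t * u s) := by gcongr
      _ = _ := by ring
  have dbl : ∀ {f g f' g' : ℝ → ℝ≥0∞}, Measurable f → Measurable g → Measurable f' →
      Measurable g' → ∫⁻ s, ∫⁻ t, (f s * g t + f' s * g' t) =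
        (∫⁻ t, f t) * (∫⁻ t, g t) + (∫⁻ t, f' t) * (∫⁻ t, g' t) := by
    intro f g f' g' mf mg mf' mg'
    have e : ∀ a, ∫⁻ b, (f a * g b + f' a * g' b) = f a * (∫⁻ b, g b) + f' a * (∫⁻ b, g' b) := by
      intro a
      rw [lintegral_add_left (mg.const_mul _), lintegral_const_mul _ mg, lintegral_const_mul _ mg']
    simp only [e]
    rw [lintegral_add_left (mf.mul_const _), lintegral_mul_const _ mf, lintegral_mul_const _ mf']
  have mku : Measurable fun t => κ t * u t := hκ.mul hu
  have mpk : Measurable fun t => ψ t * κ t := hψ.mul hκ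
  have mpku : Measurable fun t => ψ t * (κ t * u t) := hψ.mul mku
  have h2 : 2 * ((∫⁻ t, ψ t * (κ t * u t)) * ∫⁻ t, κ t) ≤
      2 * ((∫⁻ t, ψ t * κ t) * ∫⁻ t, κ t * u t) := by
    have e1 := dbl mpku hκ hκ mpku
    have e2 := dbl mpk mku mku mpk
    have l : 2 * ((∫⁻ t, ψ t * (κ t * u t)) * ∫⁻ t, κ t) =
        ∫⁻ s, ∫⁻ t, (ψ s * (κ s * u s) * κ t + κ s * (ψ t * (κ t * u t))) := by
      rw [e1]; ring
    have r : 2 * ((∫⁻ t, ψ t * κ t) * ∫⁻ t, κ t * u t) =
        ∫⁻ s, ∫⁻ t, (ψ s * κ s * (κ t * u t) + κ s * u s * (ψ t * κ t)) := by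
      rw [e2]; ring
    rw [l, r]
    exact lintegral_mono fun s => lintegral_mono fun t => key s t
  exact (ENNReal.mul_le_mul_iff_right (by norm_num) (by norm_num)).1 h2

/-- even and log-concave is enough for monotonicity in the boundary values -/
theorem lm_le_smul' {G : Type} [DecidableEq G] {w : (G → ℝ) → ℝ≥0∞} (hm : Measurable w)
    (heven : ∀ f, w (-f) = w f)
    (hlc : ∀ lam : ℝ, 0 < lam → lam < 1 → ∀ f g, w f ^ lam * w g ^ (1 - lam) ≤
      w (lam • f + (1 - lam) • g)) (W : Finset G) (ξ : G → ℝ) {c : ℝ}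
    (h : |c| ≤ 1) : lm W w ξ ≤ lm W w (c • ξ) := by
  have hneg : ∀ ξ, lm W w (-ξ) = lm W w ξ := by
    intro ξ
    rw [← lm_neg hm]
    simp only [heven]
  obtain ⟨hc1, hc2⟩ := abs_le.1 h
  rcases hc2.eq_or_lt with h1 | h1
  · rw [h1, one_smul]
  rcases hc1.eq_or_lt with h2 | h2
  · rw [← h2, neg_one_smul, hneg]
  have := pl_lm hm hm hm (lam := (1 + c) / 2) (by linarith) (by linarith)
    (hlc _ (by linarith) (by linarith)) W ξ (-ξ)
  rw [hneg] at this
  have e : ((1 + c) / 2) • ξ + (1 - (1 + c) / 2) • (-ξ) = c • ξ := by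
    ext v
    simp only [Pi.add_apply, Pi.smul_apply, Pi.neg_apply, smul_eq_mul]
    ring
  rw [e] at this
  refine le_trans (le_of_eq ?_) this
  rcases eq_or_ne (lm W w ξ) 0 with h2 | h2
  · rw [h2, ENNReal.zero_rpow_of_pos (by linarith), zero_mul]
  · rcases eq_or_ne (lm W w ξ) ∞ with h3 | h3
    · rw [h3, ENNReal.top_rpow_of_pos (by linarith), ENNReal.top_rpow_of_pos (by linarith)]
      simp
    · rw [← ENNReal.rpow_add _ _ h2 h3]
      simp

/-- the shear `f x ↦ f x + b f y` -/
noncomputable def shr {G : Type} [DecidableEq G] (x y : G) (b : ℝ) : (G → ℝ) →ₗ[ℝ] (G → ℝ) where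
  toFun f := Function.update f x (f x + b * f y)
  map_add' f g := by
    ext v
    by_cases hv : v = x
    · subst hv; simp; ring
    · simp [hv]
  map_smul' c f := by
    ext v
    by_cases hv : v = x
    · subst hv; simp; ring
    · simp [hv]

theorem shr_apply {G : Type} [DecidableEq G] (x y : G) (b : ℝ) (f : G → ℝ) :
    shr x y b f = Function.update f x (f x + b * f y) := rfl

theorem shr_meas {G : Type} [DecidableEq G] (x y : G) (b : ℝ) : Measurable (shr x y b) := by
  refine measurable_pi_iff.2 fun v => ?_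
  by_cases hv : v = x
  · subst hv
    simp only [shr_apply, Function.update_self]
    have h1 : Measurable fun f : G → ℝ => f v := measurable_pi_apply v
    have h2 : Measurable fun f : G → ℝ => f y := measurable_pi_apply y
    exact h1.add (h2.const_mul b)
  · simp only [shr_apply, Function.update_of_ne hv]
    exact measurable_pi_apply v

/-- the shear does not change integrals over `f x` -/
theorem lm_shr {G : Type} [DecidableEq G] {F : (G → ℝ) → ℝ≥0∞} (hF : Measurable F)
    (W : Finset G) {x y : G} (hx : x ∈ W) (hxy : y ≠ x) (b : ℝ) (ξ : G → ℝ) :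
    lm W (fun f => F (shr x y b f)) ξ = lm W F ξ := by
  unfold lm
  have mFs : Measurable fun f => F (shr x y b f) := hF.comp (shr_meas x y b)
  rw [lmarginal_erase' _ hF hx, lmarginal_erase' _ mFs hx]
  congr 1
  funext ζ
  have e : ∀ a : ℝ, F (shr x y b (Function.update ζ x a)) = F (Function.update ζ x (a + b * ζ y)) := by
    intro a
    rw [shr_apply]
    congr 1
    ext v
    by_cases hv : v = x
    · subst hv; simp [hxy]
    · simp [hv]
  simp only [e]
  exact lintegral_add_right_eq_self (fun a => F (Function.update ζ x a)) (b * ζ y)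

/-- comparison of the law of `f x - b f y` with the density `κ`, if the weight is
`κ (f x - b f y)` times a nice weight -/
theorem marg_compare {G : Type} [DecidableEq G] {u : (G → ℝ) → ℝ≥0∞} (hu : Nice u)
    {κ ψ : ℝ → ℝ≥0∞} (hκ : Measurable κ) (hψ : Measurable ψ)
    (mψ : ∀ s t : ℝ, |s| ≤ |t| → ψ s ≤ ψ t) (W : Finset G) {x y : G} (hx : x ∈ W) (hxy : y ≠ x)
    (b : ℝ) :
    lm W (fun f => ψ (f x - b * f y) * (κ (f x - b * f y) * u f)) 0 * (∫⁻ t, κ t) ≤
      (∫⁻ t, ψ t * κ t) * lm W (fun f => κ (f x - b * f y) * u f) 0 := by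
  obtain ⟨um, ue, ul⟩ := hu.even_lc_comp (shr x y b) (shr_meas x y b)
  set u' : (G → ℝ) → ℝ≥0∞ := fun f => u (shr x y b f) with hu'
  set H : ℝ → ℝ≥0∞ := fun t => lm (W.erase x) u' (Function.update 0 x t) with hH
  have mH : Measurable H := (um.lmarginal _).comp (measurable_update 0)
  have mdiff : Measurable fun f : G → ℝ => f x - b * f y := by
    have h1 : Measurable fun f : G → ℝ => f x := measurable_pi_apply x
    have h2 : Measurable fun f : G → ℝ => f y := measurable_pi_apply y
    exact h1.sub (h2.const_mul b)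
  have form : ∀ q : ℝ → ℝ≥0∞, Measurable q →
      lm W (fun f => q (f x - b * f y) * u f) 0 = ∫⁻ t, q t * H t := by
    intro q hq
    have mF : Measurable fun f : G → ℝ => q (f x - b * f y) * u f := (hq.comp mdiff).mul hu.meas
    rw [← lm_shr mF W hx hxy b]
    have e1 : (fun f : G → ℝ => q ((shr x y b f) x - b * (shr x y b f) y) * u (shr x y b f)) =
        fun f => q (f x) * u' f := by
      funext f
      rw [shr_apply]
      simp only [Function.update_self, Function.update_of_ne hxy, hu', shr_apply, add_sub_cancel_right]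
    rw [e1]
    have mF' : Measurable fun f : G → ℝ => q (f x) * u' f := (hq.comp (measurable_pi_apply x)).mul um
    unfold lm
    rw [lmarginal_erase _ mF' hx]
    refine lintegral_congr fun t => ?_
    simp only [hH, lm, lmarginal]
    have e2 : ∀ z : ((i : (W.erase x : Finset G)) → ℝ),
        Function.updateFinset (Function.update (0 : G → ℝ) x t) (W.erase x) z x = t := by
      intro z
      simp [Function.updateFinset]
    simp only [e2]
    rw [lintegral_const_mul]
    exact um.comp measurable_updateFinset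
  have mono : ∀ s t : ℝ, |s| ≤ |t| → H t ≤ H s := by
    intro s t hst
    simp only [hH]
    rcases eq_or_ne t 0 with h0 | h0
    · have : s = 0 := by rw [h0, abs_zero] at hst; exact abs_eq_zero.1 (le_antisymm hst (abs_nonneg _))
      rw [h0, this]
    · have e : Function.update (0 : G → ℝ) x s = (s / t) • Function.update (0 : G → ℝ) x t := by
        ext v
        by_cases hv : v = x
        · subst hv; simp; field_simp
        · simp [hv]
      rw [e]
      refine lm_le_smul' um ue ul _ _ ?_
      rw [abs_div]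
      exact (div_le_one (abs_pos.2 h0)).2 hst
  have e3 : lm W (fun f => ψ (f x - b * f y) * (κ (f x - b * f y) * u f)) 0 =
      ∫⁻ t, ψ t * (κ t * H t) := by
    have := form (fun t => ψ t * κ t) (hψ.mul hκ)
    simp only [mul_assoc] at this
    exact this
  rw [e3, form κ hκ]
  exact cheb1 hκ hψ mH mψ mono

end Pool.Agent.HM
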