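import Pool.Agent.Lib_helper69.HM.M1
import Pool.Agent.Lib_helper69.HM.Y1

open MeasureTheory Finset
open scoped ENNReal

namespace Pool.Agent.HM

variable {ρ : ℝ → ℝ}

/-- expectation form of the comparison of marginals -/
theorem M3_gib {G : Type} [DecidableEq G] {w u : (G → ℝ) → ℝ≥0∞} (hw : Measurable w)
    (hu : Nice u) {κ ψ : ℝ → ℝ≥0∞} (hκ : Measurable κ) (hψ : Measurable ψ)
    (mψ : ∀ s t : ℝ, |s| ≤ |t| → ψ s ≤ ψ t) (W : Finset G) {x y : G} (hx : x ∈ W) (hxy : y ≠ x)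
    (b : ℝ) (hwu : ∀ f, w f = κ (f x - b * f y) * u f) (h0 : ∫⁻ t, κ t ≠ 0)
    (h1 : ∫⁻ t, κ t ≠ ∞) :
    ∫⁻ f, ψ (f x - b * f y) ∂gib w W 0 ≤ (∫⁻ t, ψ t * κ t) / ∫⁻ t, κ t := by
  have mdiff : Measurable fun f : G → ℝ => f x - b * f y := by
    have h1 : Measurable fun f : G → ℝ => f x := measurable_pi_apply x
    have h2 : Measurable fun f : G → ℝ => f y := measurable_pi_apply y
    exact h1.sub (h2.const_mul b)
  have mcomp : Measurable fun f : G → ℝ => ψ (f x - b * f y) := hψ.comp mdiff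
  rw [lintegral_gib hw W 0 mcomp]
  have e : w = fun f => κ (f x - b * f y) * u f := funext hwu
  have key := marg_compare hu hκ hψ mψ W hx hxy b
  have k2 : lm W (fun f => ψ (f x - b * f y) * w f) 0 ≤
      (∫⁻ t, ψ t * κ t) / (∫⁻ t, κ t) * lm W w 0 := by
    have e1 : lm W (fun f => ψ (f x - b * f y) * w f) 0 =
        lm W (fun f => ψ (f x - b * f y) * (κ (f x - b * f y) * u f)) 0 := by
      congr 1
      funext f
      rw [hwu]
    have e2 : lm W w 0 = lm W (fun f => κ (f x - b * f y) * u f) 0 := by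
      congr 1
    rw [e1, e2, ENNReal.div_eq_inv_mul, mul_assoc]
    calc lm W (fun f => ψ (f x - b * f y) * (κ (f x - b * f y) * u f)) 0
        = (∫⁻ t, κ t)⁻¹ * (lm W (fun f => ψ (f x - b * f y) * (κ (f x - b * f y) * u f)) 0 *
            ∫⁻ t, κ t) := by
          rw [mul_comm (lm W _ 0), ← mul_assoc, ENNReal.inv_mul_cancel h0 h1, one_mul]
      _ ≤ _ := by gcongr
  calc (lm W w 0)⁻¹ * lm W (fun f => ψ (f x - b * f y) * w f) 0
      ≤ (lm W w 0)⁻¹ * ((∫⁻ t, ψ t * κ t) / (∫⁻ t, κ t) * lm W w 0) := by gcongr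
    _ = (∫⁻ t, ψ t * κ t) / (∫⁻ t, κ t) * ((lm W w 0)⁻¹ * lm W w 0) := by ring
    _ ≤ (∫⁻ t, ψ t * κ t) / (∫⁻ t, κ t) * 1 := by
        gcongr
        exact ENNReal.inv_mul_le_one _
    _ = _ := mul_one _

theorem M3_real {Ω : Type} [MeasurableSpace Ω] {μ : Measure Ω} {F : Ω → ℝ} (hF : Measurable F)
    (h0 : ∀ ω, 0 ≤ F ω) {J : ℝ≥0∞} (hJ : J ≠ ∞) (h : ∫⁻ ω, ENNReal.ofReal (F ω) ∂μ ≤ J) :
    ∫ ω, F ω ∂μ ≤ J.toReal := by
  rw [integral_eq_lintegral_of_nonneg_ae (Filter.Eventually.of_forall h0) hF.aestronglyMeasurable]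
  exact ENNReal.toReal_mono hJ h

/-- the Gaussian weight -/
theorem M3_gauss {m : ℝ} (hm : 0 < m) : EdgeWeight (fun t => Real.exp (-(m ^ 2 * t ^ 2 / 2))) := by
  refine ⟨fun t => (Real.exp_pos _).le, by simp, fun t => by simp, fun s t a b ha hb hab => ?_,
    ⟨1, one_pos, Real.exp_pos _⟩, ⟨1, ?_⟩⟩
  · rw [← Real.exp_mul, ← Real.exp_mul, ← Real.exp_add]
    refine Real.exp_le_exp.2 ?_
    have hb' : b = 1 - a := by linarith
    subst hb'
    have h2 : 0 ≤ m ^ 2 * (a * (1 - a) * (s - t) ^ 2) := by positivity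
    nlinarith
  · rw [Real.exp_lt_one_iff]
    have : 0 < m ^ 2 := by positivity
    nlinarith

/-- sixth moment, uniformly in the torus -/
theorem sixth (hρ : EdgeWeight ρ) {m : ℝ} (hm : 0 < m) :
    ∃ C : ℝ, 0 ≤ C ∧ ∀ (N : ℕ) (k : Bool) (x : Tor N), ∫ f, f x ^ 6 ∂muT ρ m N k ≤ C := by
  have hg := M3_gauss hm
  set κ : ℝ → ℝ≥0∞ := fun t => ENNReal.ofReal (Real.exp (-(m ^ 2 * t ^ 2 / 2))) with hκ
  set ψ : ℝ → ℝ≥0∞ := fun t => ENNReal.ofReal (t ^ 6) with hψ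
  have mκ : Measurable κ := hg.measurable.ennreal_ofReal
  have mψ : Measurable ψ := (measurable_id.pow_const 6).ennreal_ofReal
  have hI0 : ∫⁻ t, κ t ≠ 0 := hg.lintegral_pos.ne'
  have hI1 : ∫⁻ t, κ t ≠ ∞ := by
    have := hg.moment_lt_top 0
    simp only [pow_zero, one_mul] at this
    exact this.ne
  have hJ : ∫⁻ t, ψ t * κ t ≠ ∞ := by
    have := hg.moment_lt_top 6
    have e : ∀ t, ψ t * κ t = ENNReal.ofReal (|t| ^ 6 * Real.exp (-(m ^ 2 * t ^ 2 / 2))) := by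
      intro t
      have e6 : |t| ^ 6 = t ^ 6 := by
        rw [show (6 : ℕ) = 2 * 3 by norm_num, pow_mul, pow_mul, sq_abs]
      rw [hψ, hκ, e6, ENNReal.ofReal_mul (by positivity)]
    simp only [e]
    exact this.ne
  have hq : (∫⁻ t, ψ t * κ t) / ∫⁻ t, κ t ≠ ∞ := ENNReal.div_ne_top hJ hI0
  refine ⟨((∫⁻ t, ψ t * κ t) / ∫⁻ t, κ t).toReal, ENNReal.toReal_nonneg, fun N k x => ?_⟩
  have hx : Measurable fun f : Tor N → ℝ => f x := measurable_pi_apply x
  refine M3_real (hx.pow_const 6) (fun f => by positivity) hq ?_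
  have : Fact (1 < 2 * N + 2) := ⟨by omega⟩
  obtain ⟨y, hy⟩ : ∃ y : Tor N, y ≠ x := by
    refine ⟨(x.1 + 1, x.2), fun h => ?_⟩
    have h1 := congrArg Prod.fst h
    simp at h1
  have hu : Nice (fun f : Tor N → ℝ => (∏ p ∈ edges (stpT N k) univ,
      ENNReal.ofReal (ρ (f (p.1 + stpT N k p.2) - f p.1))) *
      ∏ z ∈ (univ : Finset (Tor N)).erase x, ENNReal.ofReal (Real.exp (-(m ^ 2 * f z ^ 2 / 2)))) :=
    (Nice.prod _ fun p _ => nice_edge hρ _ _).mul (Nice.prod _ fun z _ => nice_mass m z)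
  have := M3_gib (w := wt ρ m (stpT N k) univ) (nice_wt hρ m (stpT N k) univ).meas hu mκ mψ
    (fun s t hst => ENNReal.ofReal_le_ofReal (by
      rw [show (6 : ℕ) = 2 * 3 by norm_num, pow_mul, pow_mul]
      have := sq_le_sq.2 hst
      gcongr)) univ (mem_univ x) hy 0 (fun f => by
      rw [zero_mul, sub_zero, hκ]
      simp only [wt]
      rw [← Finset.mul_prod_erase univ (fun z => ENNReal.ofReal (Real.exp (-(m ^ 2 * f z ^ 2 / 2))))
        (mem_univ x)]
      ring) hI0 hI1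
  simp only [zero_mul, sub_zero] at this
  exact this

/-- second moment of a gradient, uniformly in the torus and in the mass -/
theorem grad_sq (hρ : EdgeWeight ρ) :
    ∃ v : ℝ, 0 ≤ v ∧ ∀ (m : ℝ), 0 < m → ∀ (N : ℕ) (k : Bool),
      ∫ f, (f (proj N k (1, 0)) - f 0) ^ 2 ∂muT ρ m N k ≤ v := by
  set κ : ℝ → ℝ≥0∞ := fun t => ENNReal.ofReal (ρ t) with hκ
  set ψ : ℝ → ℝ≥0∞ := fun t => ENNReal.ofReal (t ^ 2) with hψ
  have mκ : Measurable κ := hρ.measurable.ennreal_ofReal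
  have mψ : Measurable ψ := (measurable_id.pow_const 2).ennreal_ofReal
  have hI0 : ∫⁻ t, κ t ≠ 0 := hρ.lintegral_pos.ne'
  have hI1 : ∫⁻ t, κ t ≠ ∞ := by
    have := hρ.moment_lt_top 0
    simp only [pow_zero, one_mul] at this
    exact this.ne
  have hJ : ∫⁻ t, ψ t * κ t ≠ ∞ := by
    have := hρ.moment_lt_top 2
    have e : ∀ t, ψ t * κ t = ENNReal.ofReal (|t| ^ 2 * ρ t) := by
      intro t
      rw [hψ, hκ, sq_abs, ENNReal.ofReal_mul (by positivity)]
    simp only [e]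
    exact this.ne
  have hq : (∫⁻ t, ψ t * κ t) / ∫⁻ t, κ t ≠ ∞ := ENNReal.div_ne_top hJ hI0
  refine ⟨((∫⁻ t, ψ t * κ t) / ∫⁻ t, κ t).toReal, ENNReal.toReal_nonneg, fun m hm N k => ?_⟩
  have hproj : proj N k (1, 0) = stpT N k false := by simp [proj]
  rw [hproj]
  set x := stpT N k false with hxdef
  have hfx : Measurable fun f : Tor N → ℝ => f x := measurable_pi_apply x
  have hf0 : Measurable fun f : Tor N → ℝ => f 0 := measurable_pi_apply 0
  refine M3_real ((hfx.sub hf0).pow_const 2) (fun f => by positivity) hq ?_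
  have hne : (0 : Tor N) ≠ x := by
    have : Fact (1 < 2 * N + 2) := ⟨by omega⟩
    intro h
    have h1 : (0 : ZMod (2 * N + 2)) = 1 := by
      have := congrArg Prod.fst h
      cases k <;> simpa [hxdef, stpT] using this
    exact zero_ne_one h1
  have hmem : ((0 : Tor N), false) ∈ edges (stpT N k) (univ : Finset (Tor N)) := by
    simp [edges]
  have hu : Nice (fun f : Tor N → ℝ => (∏ p ∈ (edges (stpT N k) univ).erase (0, false),
      ENNReal.ofReal (ρ (f (p.1 + stpT N k p.2) - f p.1))) *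
      ∏ z ∈ (univ : Finset (Tor N)), ENNReal.ofReal (Real.exp (-(m ^ 2 * f z ^ 2 / 2)))) :=
    (Nice.prod _ fun p _ => nice_edge hρ _ _).mul (Nice.prod _ fun z _ => nice_mass m z)
  have := M3_gib (w := wt ρ m (stpT N k) univ) (nice_wt hρ m (stpT N k) univ).meas hu mκ mψ
    (fun s t hst => ENNReal.ofReal_le_ofReal (sq_le_sq.2 hst)) univ (mem_univ x) hne 1 (fun f => by
      rw [one_mul, hκ]
      simp only [wt]
      rw [← Finset.mul_prod_erase _ (fun p : Tor N × Bool =>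
        ENNReal.ofReal (ρ (f (p.1 + stpT N k p.2) - f p.1))) hmem]
      simp only [zero_add, ← hxdef]
      ring) hI0 hI1
  simp only [one_mul] at this
  exact this

end Pool.Agent.HM
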