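import Pool.Agent.Lib_helper69.HM.Defs

open MeasureTheory Finset
open scoped ENNReal

namespace Pool.Agent.HM

/-- for `ρ t > 0` and `|s| ≤ |t|`: `ρ t ≤ ρ s` -/
theorem EdgeWeight.anti_aux {ρ : ℝ → ℝ} (hρ : EdgeWeight ρ) (t : ℝ) : ρ t ≤ 1 := by
  by_contra h
  push Not at h
  have h1 := hρ.logconcave t (-t) (1 / 2) (1 / 2) (by norm_num) (by norm_num) (by norm_num)
  have e : (1 / 2 : ℝ) * t + 1 / 2 * -t = 0 := by ring
  rw [e, hρ.even, hρ.zero, ← Real.rpow_add (by linarith)] at h1
  norm_num at h1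
  linarith

theorem EdgeWeight.anti {ρ : ℝ → ℝ} (hρ : EdgeWeight ρ) {s t : ℝ} (h : |s| ≤ |t|) :
    ρ t ≤ ρ s := by
  have habs : ∀ x, ρ |x| = ρ x := by
    intro x
    rcases abs_choice x with h | h <;> rw [h]
    exact hρ.even x
  rw [← habs s, ← habs t]
  by_cases ht : |t| = 0
  · have hs : |s| = 0 := le_antisymm (ht ▸ h) (abs_nonneg _)
    rw [hs, ht]
  have htp : 0 < |t| := lt_of_le_of_ne (abs_nonneg _) (Ne.symm ht)
  set c := |s| / |t| with hc
  have hc0 : 0 ≤ c := by positivity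
  have hc1 : c ≤ 1 := (div_le_one htp).2 h
  have h1 := hρ.logconcave |t| 0 c (1 - c) hc0 (by linarith) (by ring)
  have e : c * |t| + (1 - c) * 0 = |s| := by rw [hc]; field_simp; ring
  rw [e, hρ.zero, Real.one_rpow, mul_one] at h1
  refine le_trans ?_ h1
  rcases (hρ.nonneg |t|).eq_or_lt with h0 | h0
  · rw [← h0]
    exact Real.rpow_nonneg le_rfl _
  · calc ρ |t| = ρ |t| ^ (1 : ℝ) := (Real.rpow_one _).symm
      _ ≤ ρ |t| ^ c := Real.rpow_le_rpow_of_exponent_ge h0 (hρ.anti_aux _) hc1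

theorem EdgeWeight.le_one {ρ : ℝ → ℝ} (hρ : EdgeWeight ρ) (t : ℝ) : ρ t ≤ 1 := hρ.anti_aux t

theorem EdgeWeight.measurable {ρ : ℝ → ℝ} (hρ : EdgeWeight ρ) : Measurable ρ := by
  have h1 : Antitone fun s : ℝ => ρ (max s 0) := by
    intro s t hst
    exact hρ.anti (by
      rw [abs_of_nonneg (le_max_right _ _), abs_of_nonneg (le_max_right _ _)]
      exact max_le_max hst le_rfl)
  have h2 : ρ = fun x => (fun s : ℝ => ρ (max s 0)) |x| := by
    funext x
    simp only [max_eq_left (abs_nonneg x)]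
    rcases abs_choice x with h | h <;> rw [h]
    exact (hρ.even x).symm
  rw [h2]
  exact h1.measurable.comp measurable_norm

/-- exponential decay -/
theorem EdgeWeight.decay {ρ : ℝ → ℝ} (hρ : EdgeWeight ρ) :
    ∃ c K : ℝ, 0 < c ∧ 0 < K ∧ ∀ t, ρ t ≤ K * Real.exp (-(c * |t|)) := by
  obtain ⟨b, hb⟩ := hρ.nonconst
  have hb0 : b ≠ 0 := by rintro rfl; rw [hρ.zero] at hb; exact lt_irrefl _ hb
  have hbp : 0 < |b| := abs_pos.2 hb0
  have habs : ∀ x, ρ |x| = ρ x := by
    intro x
    rcases abs_choice x with h | h <;> rw [h]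
    exact hρ.even x
  -- a positive number q with ρ b ≤ q < 1
  set q := (ρ b + 1) / 2 with hq
  have hq0 : 0 < q := by have := hρ.nonneg b; rw [hq]; linarith
  have hq1 : q < 1 := by rw [hq]; linarith
  have hbq : ρ b ≤ q := by rw [hq]; linarith
  set c := -Real.log q / |b| with hc
  have hc0 : 0 < c := div_pos (neg_pos.2 (Real.log_neg hq0 hq1)) hbp
  refine ⟨c, 1 / q, hc0, by positivity, fun t => ?_⟩
  have e1 : Real.exp (-(c * |t|)) = q ^ (|t| / |b|) := by
    rw [Real.rpow_def_of_pos hq0, hc]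
    congr 1
    field_simp
  rw [e1]
  rcases le_or_gt |b| |t| with h | h
  · -- ρ |b| ≥ ρ |t| ^ (|b|/|t|)
    have htp : 0 < |t| := hbp.trans_le h
    set l := |b| / |t| with hl
    have hl0 : 0 < l := by positivity
    have hl1 : l ≤ 1 := (div_le_one htp).2 h
    have h1 := hρ.logconcave |t| 0 l (1 - l) hl0.le (by linarith) (by ring)
    have e : l * |t| + (1 - l) * 0 = |b| := by rw [hl]; field_simp; ring
    rw [e, hρ.zero, Real.one_rpow, mul_one, habs, habs] at h1
    have h2 : ρ t ^ l ≤ q := h1.trans hbq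
    have h3 : ρ t ≤ q ^ (|t| / |b|) := by
      have h4 : (ρ t ^ l) ^ (|t| / |b|) ≤ q ^ (|t| / |b|) :=
        Real.rpow_le_rpow (Real.rpow_nonneg (hρ.nonneg t) _) h2 (by positivity)
      rw [← Real.rpow_mul (hρ.nonneg t)] at h4
      have e5 : l * (|t| / |b|) = 1 := by rw [hl]; field_simp
      rwa [e5, Real.rpow_one] at h4
    refine h3.trans ?_
    have : 1 ≤ 1 / q := (one_le_div hq0).2 hq1.le
    have hp : 0 ≤ q ^ (|t| / |b|) := Real.rpow_nonneg hq0.le _
    nlinarith
  · have h1 : |t| / |b| ≤ 1 := (div_le_one hbp).2 h.le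
    have h2 : q ≤ q ^ (|t| / |b|) := by
      calc q = q ^ (1 : ℝ) := (Real.rpow_one _).symm
        _ ≤ _ := Real.rpow_le_rpow_of_exponent_ge hq0 hq1.le h1
    calc ρ t ≤ 1 := hρ.le_one t
      _ = 1 / q * q := by field_simp
      _ ≤ 1 / q * q ^ (|t| / |b|) := by gcongr

/-- all moments are finite -/
theorem EdgeWeight.moment_lt_top {ρ : ℝ → ℝ} (hρ : EdgeWeight ρ) (k : ℕ) :
    ∫⁻ t, ENNReal.ofReal (|t| ^ k * ρ t) < ∞ := by
  obtain ⟨c, K, hc, hK, h⟩ := hρ.decay
  set D := K * (k.factorial / c ^ k + (k + 2).factorial / c ^ (k + 2)) with hD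
  have hint : Integrable fun t : ℝ => D * (1 + t ^ 2)⁻¹ := integrable_inv_one_add_sq.const_mul D
  have hle : ∀ t : ℝ, |t| ^ k * ρ t ≤ D * (1 + t ^ 2)⁻¹ := by
    intro t
    have hpos : 0 < 1 + t ^ 2 := by positivity
    rw [← div_eq_mul_inv, le_div_iff₀ hpos]
    have e0 : 0 < Real.exp (c * |t|) := Real.exp_pos _
    have p1 := Real.pow_div_factorial_le_exp (c * |t|) (by positivity) k
    have p2 := Real.pow_div_factorial_le_exp (c * |t|) (by positivity) (k + 2)
    have q1 : |t| ^ k ≤ k.factorial / c ^ k * Real.exp (c * |t|) := by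
      have hf : (0 : ℝ) < k.factorial := by positivity
      rw [div_le_iff₀ hf, mul_pow] at p1
      rw [div_mul_eq_mul_div, le_div_iff₀ (by positivity)]
      nlinarith
    have q2 : |t| ^ (k + 2) ≤ (k + 2).factorial / c ^ (k + 2) * Real.exp (c * |t|) := by
      have hf : (0 : ℝ) < (k + 2).factorial := by positivity
      rw [div_le_iff₀ hf, mul_pow] at p2
      rw [div_mul_eq_mul_div, le_div_iff₀ (by positivity)]
      nlinarith
    have q3 : |t| ^ k * (1 + t ^ 2) ≤
        (k.factorial / c ^ k + (k + 2).factorial / c ^ (k + 2)) * Real.exp (c * |t|) := by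
      have e : |t| ^ k * (1 + t ^ 2) = |t| ^ k + |t| ^ (k + 2) := by
        rw [pow_add, sq_abs]; ring
      rw [e, add_mul]
      exact add_le_add q1 q2
    calc |t| ^ k * ρ t * (1 + t ^ 2) = ρ t * (|t| ^ k * (1 + t ^ 2)) := by ring
      _ ≤ (K * Real.exp (-(c * |t|))) * ((k.factorial / c ^ k + (k + 2).factorial / c ^ (k + 2)) *
          Real.exp (c * |t|)) := by
          refine mul_le_mul (h t) q3 (by positivity) (by positivity)
      _ = D * (Real.exp (-(c * |t|)) * Real.exp (c * |t|)) := by rw [hD]; ring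
      _ = D := by rw [← Real.exp_add]; simp
  refine lt_of_le_of_lt (lintegral_mono fun t => ENNReal.ofReal_le_ofReal (hle t)) ?_
  rw [← ofReal_integral_eq_lintegral_ofReal hint (Filter.Eventually.of_forall fun t => by
    have : 0 < (1 + t ^ 2)⁻¹ := by positivity
    positivity)]
  exact ENNReal.ofReal_lt_top

theorem EdgeWeight.lintegral_pos {ρ : ℝ → ℝ} (hρ : EdgeWeight ρ) :
    0 < ∫⁻ t, ENNReal.ofReal (ρ t) := by
  obtain ⟨a, ha, hpa⟩ := hρ.pos
  have h1 : ∫⁻ t in Set.Icc (0 : ℝ) a, ENNReal.ofReal (ρ a) ≤ ∫⁻ t, ENNReal.ofReal (ρ t) := by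
    refine le_trans (setLIntegral_mono' measurableSet_Icc fun t ht => ?_) (setLIntegral_le_lintegral _ _)
    refine ENNReal.ofReal_le_ofReal (hρ.anti ?_)
    rw [abs_of_nonneg ht.1, abs_of_pos ha]
    exact ht.2
  refine lt_of_lt_of_le ?_ h1
  rw [setLIntegral_const, Real.volume_Icc, sub_zero]
  exact ENNReal.mul_pos (by simpa using hpa) (by simpa using ha)

/-- supermodularity -/
theorem EdgeWeight.sm {ρ : ℝ → ℝ} (hρ : EdgeWeight ρ) (a b c d : ℝ) :
    ρ (a - b) * ρ (c - d) ≤ ρ (min a c - min b d) * ρ (max a c - max b d) := by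
  -- four point form of log-concavity
  have four : ∀ u v p : ℝ, u ≤ p → p ≤ v → ρ u * ρ v ≤ ρ p * ρ (u + v - p) := by
    intro u v p h1 h2
    rcases eq_or_lt_of_le (h1.trans h2) with h | h
    · have : p = u := le_antisymm (h ▸ h2) h1
      subst this
      rw [h]
      simp
    set l := (v - p) / (v - u) with hl
    have hvu : 0 < v - u := by linarith
    have hl0 : 0 ≤ l := div_nonneg (by linarith) hvu.le
    have hl1 : l ≤ 1 := (div_le_one hvu).2 (by linarith)
    have e1 : l * u + (1 - l) * v = p := by rw [hl]; field_simp; ring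
    have e2 : (1 - l) * u + l * v = u + v - p := by rw [hl]; field_simp; ring
    have k1 := hρ.logconcave u v l (1 - l) hl0 (by linarith) (by ring)
    have k2 := hρ.logconcave u v (1 - l) l (by linarith) hl0 (by ring)
    rw [e1] at k1
    rw [e2] at k2
    have hu := hρ.nonneg u
    have hv := hρ.nonneg v
    rcases hu.eq_or_lt with h0 | h0
    · rw [← h0, zero_mul]; exact mul_nonneg (hρ.nonneg _) (hρ.nonneg _)
    rcases hv.eq_or_lt with h0' | h0'
    · rw [← h0', mul_zero]; exact mul_nonneg (hρ.nonneg _) (hρ.nonneg _)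
    calc ρ u * ρ v = (ρ u ^ l * ρ v ^ (1 - l)) * (ρ u ^ (1 - l) * ρ v ^ l) := by
          rw [mul_mul_mul_comm, ← Real.rpow_add h0, ← Real.rpow_add h0']
          simp
      _ ≤ _ := mul_le_mul k1 k2 (by positivity) (hρ.nonneg _)
  rcases le_total a c with h1 | h1 <;> rcases le_total b d with h2 | h2
  · rw [min_eq_left h1, min_eq_left h2, max_eq_right h1, max_eq_right h2]
  · rw [min_eq_left h1, min_eq_right h2, max_eq_right h1, max_eq_left h2]
    have := four (a - b) (c - d) (a - d) (by linarith) (by linarith)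
    have e : a - b + (c - d) - (a - d) = c - b := by ring
    rwa [e] at this
  · rw [min_eq_right h1, min_eq_left h2, max_eq_left h1, max_eq_right h2]
    have := four (c - d) (a - b) (c - b) (by linarith) (by linarith)
    have e : c - d + (a - b) - (c - b) = a - d := by ring
    rw [e] at this
    rw [mul_comm (ρ (a - b))]
    exact this
  · rw [min_eq_right h1, min_eq_right h2, max_eq_left h1, max_eq_left h2, mul_comm]

end Pool.Agent.HM
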