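import Pool.Agent.Lib_helper14.HM.M1
import Pool.Agent.Lib_helper14.HMT.Concl
import Pool.Agent.Lib_helper12.HM.M5

/-!
# T1: the bad event (some `*`-edge changes the field by more than `b`) is unlikely
-/

set_option autoImplicit false

open MeasureTheory Finset HMT
open scoped ENNReal

namespace Pool.Agent.HM

section general

variable {G : Type} [DecidableEq G] [Fintype G]

/-- shift invariant events: the pinned vertex does not matter -/
theorem pin_move {w : (G → ℝ) → ℝ≥0∞} (hw : Measurable w) (hinv : ∀ f c, w (fun v => f v + c) = w f)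
    {A : Set (G → ℝ)} (mA : MeasurableSet A) (hA : ∀ f c, (fun v => f v + c) ∈ A ↔ f ∈ A)
    (o o' : G) : pin o w A = pin o' w A := by
  have hm : Measurable fun f => A.indicator (1 : (G → ℝ) → ℝ≥0∞) f * w f :=
    (measurable_one.indicator mA).mul hw
  have hi : ∀ (f : G → ℝ) (c : ℝ), A.indicator (1 : (G → ℝ) → ℝ≥0∞) (fun v => f v + c) *
      w (fun v => f v + c) = A.indicator (1 : (G → ℝ) → ℝ≥0∞) f * w f := by
    intro f c
    rw [hinv]
    congr 1
    by_cases hf : f ∈ A
    · rw [Set.indicator_of_mem hf, Set.indicator_of_mem ((hA f c).2 hf)]; rfl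
    · rw [Set.indicator_of_notMem hf, Set.indicator_of_notMem (fun h => hf ((hA f c).1 h))]
  unfold pin
  rw [← win_pin hm hi o, ← win_pin hm hi o']
  exact swap hm hi (measurable_pi_apply o) (measurable_pi_apply o') (fun _ _ => rfl) (fun _ _ => rfl)

theorem pin_biUnion {w : (G → ℝ) → ℝ≥0∞} (hw : Measurable w) {ι : Type} (s : Finset ι)
    {A : ι → Set (G → ℝ)} (mA : ∀ i, MeasurableSet (A i)) (o : G) :
    pin o w (⋃ i ∈ s, A i) ≤ ∑ i ∈ s, pin o w (A i) := by
  unfold pin lmarginal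
  rw [← lintegral_finsetSum]
  · refine lintegral_mono fun y => ?_
    simp only
    rw [← Finset.sum_mul]
    refine mul_le_mul' ?_ le_rfl
    set f := Function.updateFinset (0 : G → ℝ) (Finset.univ.erase o) y
    by_cases h1 : f ∈ ⋃ i ∈ s, A i
    · simp only [Set.mem_iUnion, exists_prop] at h1
      obtain ⟨i, hi, hf⟩ := h1
      refine le_trans ?_ (Finset.single_le_sum (f := fun i =>
        (A i).indicator (1 : (G → ℝ) → ℝ≥0∞) f) (fun _ _ => bot_le) hi)
      rw [Set.indicator_of_mem hf]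
      exact Set.indicator_le_self' (fun _ _ => zero_le_one) f
    · rw [Set.indicator_of_notMem h1]
      exact bot_le
  · intro i _
    exact ((measurable_one.indicator (mA i)).mul hw).comp measurable_updateFinset

/-- tail of one increment -/
theorem pin_edge {ρ : ℝ → ℝ} (hρ : EdgeWeight ρ) {u w : (G → ℝ) → ℝ≥0∞} (hu : Nice u) {x o : G}
    (hxo : x ≠ o) (hw : ∀ f, w f = ENNReal.ofReal (ρ (f x - f o)) * u f) (b : ℝ) :
    pin o w {f | b < |f x - f o|} * (∫⁻ t, ENNReal.ofReal (ρ t)) ≤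
      (∫⁻ t, {t : ℝ | b < |t|}.indicator 1 t * ENNReal.ofReal (ρ t)) * pin o w Set.univ := by
  have hκ : Measurable fun t => ENNReal.ofReal (ρ t) := hρ.measurable.ennreal_ofReal
  have mset : MeasurableSet {t : ℝ | b < |t|} := measurableSet_lt measurable_const measurable_norm
  have hψ : Measurable ({t : ℝ | b < |t|}.indicator (1 : ℝ → ℝ≥0∞)) := measurable_one.indicator mset
  have mψ : ∀ s t : ℝ, |s| ≤ |t| → {t : ℝ | b < |t|}.indicator (1 : ℝ → ℝ≥0∞) s ≤
      {t : ℝ | b < |t|}.indicator (1 : ℝ → ℝ≥0∞) t := by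
    intro s t hst
    by_cases hs : s ∈ {t : ℝ | b < |t|}
    · have ht : t ∈ {t : ℝ | b < |t|} := lt_of_lt_of_le hs hst
      rw [Set.indicator_of_mem hs, Set.indicator_of_mem ht]; rfl
    · rw [Set.indicator_of_notMem hs]; exact bot_le
  have key := marg_compare hu hκ hψ mψ (Finset.univ.erase o) (x := x) (y := o)
    (Finset.mem_erase.2 ⟨hxo, Finset.mem_univ _⟩) (Ne.symm hxo) 1
  simp only [one_mul] at key
  have e1 : pin o w {f | b < |f x - f o|} = lm (Finset.univ.erase o) (fun f =>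
      {t : ℝ | b < |t|}.indicator (1 : ℝ → ℝ≥0∞) (f x - f o) *
        (ENNReal.ofReal (ρ (f x - f o)) * u f)) 0 := by
    unfold pin lm
    congr 1
    funext f
    rw [hw]
    congr 1
  have e2 : pin o w Set.univ = lm (Finset.univ.erase o) (fun f =>
      ENNReal.ofReal (ρ (f x - f o)) * u f) 0 := by
    unfold pin lm
    congr 1
    funext f
    rw [hw, Set.indicator_of_mem (Set.mem_univ f)]
    simp
  rw [e1, e2]
  exact key

end general

/-- exponential tail of the edge weight -/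
theorem EdgeWeight.tail {ρ : ℝ → ℝ} (hρ : EdgeWeight ρ) :
    ∃ c D : ℝ, 0 < c ∧ 0 < D ∧ ∀ b : ℝ, 0 ≤ b →
      (∫⁻ t, {t : ℝ | b < |t|}.indicator 1 t * ENNReal.ofReal (ρ t)) ≤
        ENNReal.ofReal (D * Real.exp (-(c * b))) * ∫⁻ t, ENNReal.ofReal (ρ t) := by
  obtain ⟨c, K, hc, hK, hdec⟩ := hρ.decay
  -- `ρ t ≤ exp (-(c/2) b) * (K exp (-(c/2)|t|))` for `|t| > b`
  have hJ : ∫⁻ t : ℝ, ENNReal.ofReal (K * Real.exp (-(c / 2 * |t|))) < ∞ := by
    set D' := K * (1 + 2 / (c / 2) ^ 2) with hD'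
    have hint : Integrable fun t : ℝ => D' * (1 + t ^ 2)⁻¹ := integrable_inv_one_add_sq.const_mul D'
    refine lt_of_le_of_lt (lintegral_mono fun t => ENNReal.ofReal_le_ofReal
      (q := D' * (1 + t ^ 2)⁻¹) ?_) ?_
    · have hpos : 0 < 1 + t ^ 2 := by positivity
      rw [← div_eq_mul_inv, le_div_iff₀ hpos, mul_assoc, hD']
      refine mul_le_mul_of_nonneg_left ?_ hK.le
      have hx : 0 ≤ c / 2 * |t| := by positivity
      have p2 := Real.pow_div_factorial_le_exp (c / 2 * |t|) hx 2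
      have p0 := Real.one_le_exp hx
      have e2 : ((2 : ℕ).factorial : ℝ) = 2 := by norm_num [Nat.factorial]
      rw [e2, mul_pow, sq_abs] at p2
      have hE : 0 < Real.exp (c / 2 * |t|) := Real.exp_pos _
      have q : 1 + t ^ 2 ≤ (1 + 2 / (c / 2) ^ 2) * Real.exp (c / 2 * |t|) := by
        have hc2 : 0 < (c / 2) ^ 2 := by positivity
        have q2 : t ^ 2 ≤ 2 / (c / 2) ^ 2 * Real.exp (c / 2 * |t|) := by
          rw [div_mul_eq_mul_div, le_div_iff₀ hc2]
          linarith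
        linarith
      calc Real.exp (-(c / 2 * |t|)) * (1 + t ^ 2)
          ≤ Real.exp (-(c / 2 * |t|)) * ((1 + 2 / (c / 2) ^ 2) * Real.exp (c / 2 * |t|)) := by
            gcongr
        _ = (1 + 2 / (c / 2) ^ 2) * (Real.exp (-(c / 2 * |t|)) * Real.exp (c / 2 * |t|)) := by ring
        _ = _ := by rw [← Real.exp_add]; simp
    · rw [← ofReal_integral_eq_lintegral_ofReal hint (Filter.Eventually.of_forall fun t => by
        have : 0 < (1 + t ^ 2)⁻¹ := by positivity
        positivity)]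
      exact ENNReal.ofReal_lt_top
  set J := ∫⁻ t : ℝ, ENNReal.ofReal (K * Real.exp (-(c / 2 * |t|))) with hJdef
  set I := ∫⁻ t, ENNReal.ofReal (ρ t) with hI
  have hI0 : 0 < I := hρ.lintegral_pos
  have hIt : I < ∞ := by
    have := hρ.moment_lt_top 0
    simpa only [pow_zero, one_mul] using this
  refine ⟨c / 2, (J / I).toReal + 1, by positivity, by positivity, fun b hb => ?_⟩
  have hJI : J / I ≠ ∞ := ENNReal.div_ne_top hJ.ne hI0.ne'
  have h1 : (∫⁻ t, {t : ℝ | b < |t|}.indicator 1 t * ENNReal.ofReal (ρ t)) ≤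
      ENNReal.ofReal (Real.exp (-(c / 2 * b))) * J := by
    rw [hJdef, ← lintegral_const_mul' _ _ ENNReal.ofReal_ne_top]
    refine lintegral_mono fun t => ?_
    by_cases ht : t ∈ {t : ℝ | b < |t|}
    · rw [Set.indicator_of_mem ht, Pi.one_apply, one_mul,
        ← ENNReal.ofReal_mul (Real.exp_pos _).le]
      refine ENNReal.ofReal_le_ofReal ((hdec t).trans ?_)
      have ht' : b < |t| := ht
      calc K * Real.exp (-(c * |t|)) ≤ K * (Real.exp (-(c / 2 * b)) * Real.exp (-(c / 2 * |t|))) := by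
            rw [← Real.exp_add]
            refine mul_le_mul_of_nonneg_left (Real.exp_le_exp.2 ?_) hK.le
            nlinarith
        _ = _ := by ring
    · rw [Set.indicator_of_notMem ht, zero_mul]; exact bot_le
  refine h1.trans ?_
  have e : J = J / I * I := (ENNReal.div_mul_cancel hI0.ne' hIt.ne).symm
  calc ENNReal.ofReal (Real.exp (-(c / 2 * b))) * J
      = ENNReal.ofReal (Real.exp (-(c / 2 * b))) * (J / I) * I := by rw [mul_assoc, ← e]
    _ ≤ ENNReal.ofReal (Real.exp (-(c / 2 * b))) * ENNReal.ofReal ((J / I).toReal + 1) * I := by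
        gcongr
        rw [← ENNReal.ofReal_toReal hJI]
        refine ENNReal.ofReal_le_ofReal ?_
        rw [ENNReal.toReal_ofReal ENNReal.toReal_nonneg]
        linarith
    _ = _ := by rw [mul_comm ((J / I).toReal + 1), ENNReal.ofReal_mul (Real.exp_pos _).le]

variable {M : ℕ} [NeZero M]

theorem wT_nice {ρ : ℝ → ℝ} (hρ : EdgeWeight ρ) (s : Finset ((ZMod M × ZMod M) × Bool)) :
    Nice (fun f : ZMod M × ZMod M → ℝ =>
      ∏ p ∈ s, ENNReal.ofReal (ρ (f (p.1 + sT M p.2) - f p.1))) :=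
  Nice.prod s fun p _ => nice_edge hρ _ _

theorem wT_nice' {ρ : ℝ → ℝ} (hρ : EdgeWeight ρ) : Nice (wT ρ M) := by
  have : wT ρ M = fun f : ZMod M × ZMod M → ℝ =>
      ∏ p : (ZMod M × ZMod M) × Bool, ENNReal.ofReal (ρ (f (p.1 + sT M p.2) - f p.1)) :=
    funext (wT_eq ρ)
  rw [this]
  exact wT_nice hρ _

theorem wT_inv (ρ : ℝ → ℝ) (f : ZMod M × ZMod M → ℝ) (c : ℝ) :
    wT ρ M (fun v => f v + c) = wT ρ M f := by
  unfold wT
  simp only [add_sub_add_right_eq_sub]

/-- tail of the increment over the edge `p` -/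
theorem edge_tail {ρ : ℝ → ℝ} (hρ : EdgeWeight ρ) (hM : 2 ≤ M) {c D : ℝ}
    (hcD : ∀ b : ℝ, 0 ≤ b → (∫⁻ t, {t : ℝ | b < |t|}.indicator 1 t * ENNReal.ofReal (ρ t)) ≤
        ENNReal.ofReal (D * Real.exp (-(c * b))) * ∫⁻ t, ENNReal.ofReal (ρ t)) {b : ℝ} (hb : 0 ≤ b)
    (p : (ZMod M × ZMod M) × Bool) :
    pin 0 (wT ρ M) {f | b < |f (p.1 + sT M p.2) - f p.1|} ≤
      ENNReal.ofReal (D * Real.exp (-(c * b))) * pin 0 (wT ρ M) Set.univ := by
  have hne : p.1 + sT M p.2 ≠ p.1 := by
    intro h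
    have h0 : sT M p.2 = 0 := by simpa using h
    have : Fact (1 < M) := ⟨by omega⟩
    rcases p with ⟨v, i⟩
    cases i <;> simp [sT] at h0
  have hI0 := hρ.lintegral_pos
  have hIt : ∫⁻ t, ENNReal.ofReal (ρ t) < ∞ := by
    have := hρ.moment_lt_top 0
    simpa only [pow_zero, one_mul] using this
  have key := pin_edge hρ (wT_nice hρ (Finset.univ.erase p)) (w := wT ρ M) hne (fun f => by
    rw [wT_eq, Finset.mul_prod_erase Finset.univ (fun p : (ZMod M × ZMod M) × Bool =>
      ENNReal.ofReal (ρ (f (p.1 + sT M p.2) - f p.1))) (Finset.mem_univ p)]) b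
  have k2 := key.trans (mul_le_mul' (hcD b hb) le_rfl)
  have mset : MeasurableSet {f : ZMod M × ZMod M → ℝ | b < |f (p.1 + sT M p.2) - f p.1|} := by
    have h1 : Measurable fun f : ZMod M × ZMod M → ℝ => f (p.1 + sT M p.2) := measurable_pi_apply _
    have h2 : Measurable fun f : ZMod M × ZMod M → ℝ => f p.1 := measurable_pi_apply _
    exact measurableSet_lt measurable_const (h1.sub h2).abs
  have hm := (wT_nice' (M := M) hρ).meas
  rw [pin_move hm (wT_inv ρ) mset (fun f c => by simp) 0 p.1,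
    pin_move hm (wT_inv ρ) MeasurableSet.univ (fun f c => by simp) 0 p.1]
  have k3 : pin p.1 (wT ρ M) {f | b < |f (p.1 + sT M p.2) - f p.1|} * (∫⁻ t, ENNReal.ofReal (ρ t)) ≤
      ENNReal.ofReal (D * Real.exp (-(c * b))) * pin p.1 (wT ρ M) Set.univ *
        ∫⁻ t, ENNReal.ofReal (ρ t) := by
    refine k2.trans (le_of_eq ?_)
    ring
  exact (ENNReal.mul_le_mul_iff_left hI0.ne' hIt.ne).1 k3

/-- the bad event is covered by the edge events -/
theorem bad_sub (b : ℝ) : bad M b ⊆ ⋃ p ∈ (Finset.univ : Finset ((ZMod M × ZMod M) × Bool)),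
    {f | b / 2 < |f (p.1 + sT M p.2) - f p.1|} := by
  rintro f ⟨v, w, ⟨u, hv, hw⟩, hvw⟩
  by_contra hcon
  simp only [Finset.mem_univ, Set.iUnion_true, Set.mem_iUnion, not_exists, Set.mem_ofPred_eq,
    not_lt] at hcon
  have h1 : ∀ x : ZMod M × ZMod M, |f (x + e1 M) - f x| ≤ b / 2 := fun x => hcon (x, false)
  have h2 : ∀ x : ZMod M × ZMod M, |f (x + e2 M) - f x| ≤ b / 2 := fun x => hcon (x, true)
  have a1 := abs_le.1 (h1 u)
  have a2 := abs_le.1 (h2 u)
  have a3 := abs_le.1 (h1 (u + e2 M))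
  have a4 := abs_le.1 (h2 (u + e1 M))
  have e : u + e2 M + e1 M = u + e1 M + e2 M := by abel
  rw [e] at a3
  have : |f v - f w| ≤ b := by
    rcases hv with rfl | rfl | rfl | rfl <;> rcases hw with rfl | rfl | rfl | rfl <;>
      rw [abs_le] <;> constructor <;> linarith [a1.1, a1.2, a2.1, a2.2, a3.1, a3.2, a4.1, a4.2]
  linarith

/-- **T1**: the bad event is unlikely -/
theorem bad_small {ρ : ℝ → ℝ} (hρ : EdgeWeight ρ) :
    ∃ C : ℝ, 0 < C ∧ ∀ (M : ℕ) [NeZero M], 2 ≤ M →
      pin 0 (wT ρ M) (bad M (C * Real.log M)) ≤ (1 / 1000) * pin 0 (wT ρ M) Set.univ := by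
  obtain ⟨c, D, hc, hD, htail⟩ := hρ.tail
  obtain ⟨k, hk⟩ := pow_unbounded_of_one_lt (2000 * D) (by norm_num : (1 : ℝ) < 2)
  refine ⟨2 * (2 + k) / c, by positivity, fun M _ hM => ?_⟩
  set b := 2 * (2 + k) / c * Real.log M with hb
  have hM0 : (0 : ℝ) < M := by have : 0 < M := by omega
                               exact_mod_cast this
  have hlog : 0 ≤ Real.log M := Real.log_natCast_nonneg M
  have hb0 : 0 ≤ b := by positivity
  have hm := (wT_nice' (M := M) hρ).meas
  have mset : ∀ p : (ZMod M × ZMod M) × Bool,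
      MeasurableSet {f : ZMod M × ZMod M → ℝ | b / 2 < |f (p.1 + sT M p.2) - f p.1|} := by
    intro p
    have h1 : Measurable fun f : ZMod M × ZMod M → ℝ => f (p.1 + sT M p.2) := measurable_pi_apply _
    have h2 : Measurable fun f : ZMod M × ZMod M → ℝ => f p.1 := measurable_pi_apply _
    exact measurableSet_lt measurable_const (h1.sub h2).abs
  calc pin 0 (wT ρ M) (bad M b)
      ≤ pin 0 (wT ρ M) (⋃ p ∈ (Finset.univ : Finset ((ZMod M × ZMod M) × Bool)),
          {f | b / 2 < |f (p.1 + sT M p.2) - f p.1|}) := pin_congr fun f _ hf => bad_sub b hf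
    _ ≤ ∑ p ∈ (Finset.univ : Finset ((ZMod M × ZMod M) × Bool)),
          pin 0 (wT ρ M) {f | b / 2 < |f (p.1 + sT M p.2) - f p.1|} := pin_biUnion hm _ mset 0
    _ ≤ ∑ p ∈ (Finset.univ : Finset ((ZMod M × ZMod M) × Bool)),
          ENNReal.ofReal (D * Real.exp (-(c * (b / 2)))) * pin 0 (wT ρ M) Set.univ :=
        Finset.sum_le_sum fun p _ => edge_tail hρ hM htail (by positivity) p
    _ = ENNReal.ofReal (2 * M ^ 2 * (D * Real.exp (-(c * (b / 2))))) * pin 0 (wT ρ M) Set.univ := by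
        rw [Finset.sum_const, Finset.card_univ, Fintype.card_prod, Fintype.card_prod, ZMod.card,
          Fintype.card_bool, nsmul_eq_mul, ← mul_assoc]
        congr 1
        have e : ((M * M * 2 : ℕ) : ℝ≥0∞) = ENNReal.ofReal (2 * M ^ 2) := by
          rw [← ENNReal.ofReal_natCast]
          congr 1
          push_cast
          ring
        rw [e, ← ENNReal.ofReal_mul (by positivity)]
    _ ≤ (1 / 1000) * pin 0 (wT ρ M) Set.univ := by
        gcongr
        have e1 : Real.exp (-(c * (b / 2))) = ((M : ℝ) ^ (2 + k))⁻¹ := by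
          rw [Real.exp_neg]
          congr 1
          have : c * (b / 2) = ((2 + k : ℕ) : ℝ) * Real.log M := by
            rw [hb]; push_cast; field_simp
          rw [this, ← Real.log_pow, Real.exp_log (by positivity)]
        have e2 : 2 * (M : ℝ) ^ 2 * (D * Real.exp (-(c * (b / 2)))) ≤ 1 / 1000 := by
          rw [e1, pow_add, mul_inv]
          have h3 : (2 : ℝ) ^ k ≤ (M : ℝ) ^ k := by
            gcongr
            exact_mod_cast hM
          have h4 : 0 < (M : ℝ) ^ k := by positivity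
          have h5 : 2 * (M : ℝ) ^ 2 * (D * (((M : ℝ) ^ 2)⁻¹ * ((M : ℝ) ^ k)⁻¹)) =
              2 * D / (M : ℝ) ^ k := by
            field_simp
          rw [h5, div_le_iff₀ h4]
          linarith
        refine (ENNReal.ofReal_le_ofReal e2).trans (le_of_eq ?_)
        rw [ENNReal.ofReal_div_of_pos (by norm_num)]
        norm_num

end Pool.Agent.HM
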