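import Pool.Agent.Lib_helper14.HM.T1

/-!
# T2: one tail of the height on the pinned torus
-/

set_option autoImplicit false

open MeasureTheory Finset HMT
open scoped ENNReal

namespace Pool.Agent.HM

variable {M : ℕ} [NeZero M]

theorem wT_lsm {ρ : ℝ → ℝ} (hρ : EdgeWeight ρ) : LSM (wT ρ M) := by
  intro x y
  rw [mul_comm (wT ρ M (x ⊔ y))]
  exact (wT_nice' hρ).sm x y

theorem wT_rot {ρ : ℝ → ℝ} (hρ : ∀ t, ρ (-t) = ρ t) (f : ZMod M × ZMod M → ℝ) :
    wT ρ M (f ∘ rot M) = wT ρ M f := by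
  unfold wT
  rw [Finset.prod_mul_distrib, Finset.prod_mul_distrib, mul_comm]
  congr 1
  · refine Fintype.prod_equiv ((rot M).trans (Equiv.addRight (-(1, 0)))) _ _ fun x => ?_
    congr 1
    rw [← hρ]
    congr 1
    simp only [Function.comp_apply, Equiv.trans_apply, Equiv.coe_addRight, neg_sub]
    have e1 : rot M x + -(1, 0) + e1 M = rot M x := by
      rw [add_assoc]; simp
    rw [e1]
    congr 2
    ext <;> simp [rot]
    ring
  · refine Fintype.prod_equiv (rot M) _ _ fun x => ?_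
    congr 2
    simp only [Function.comp_apply]
    congr 2
    ext <;> simp [rot]

theorem sqrt_step {P Z : ℝ≥0∞} (h : P * P ≤ (1 / 1000 * Z + 1 / 1000 * Z) * Z) : P ≤ 1 / 22 * Z := by
  have h1 : P ^ 2 ≤ (1 / 22 * Z) ^ 2 := by
    rw [sq, mul_pow, sq Z]
    refine h.trans ?_
    rw [← add_mul, mul_assoc]
    refine mul_le_mul' ?_ le_rfl
    have e1 : (1 / 1000 + 1 / 1000 : ℝ≥0∞) = ENNReal.ofReal (1 / 500) := by
      rw [← ENNReal.ofReal_one, ← ENNReal.ofReal_ofNat 1000, ← ENNReal.ofReal_div_of_pos (by norm_num),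
        ← ENNReal.ofReal_add (by norm_num) (by norm_num)]
      norm_num
    have e2 : ((1 / 22 : ℝ≥0∞)) ^ 2 = ENNReal.ofReal (1 / 484) := by
      rw [← ENNReal.ofReal_one, ← ENNReal.ofReal_ofNat 22, ← ENNReal.ofReal_div_of_pos (by norm_num),
        ← ENNReal.ofReal_pow (by norm_num)]
      norm_num
    rw [e1, e2]
    exact ENNReal.ofReal_le_ofReal (by norm_num)
  exact (ENNReal.pow_le_pow_left_iff (by norm_num)).1 h1

/-- **T2**: one-sided tail of the height at any vertex of the pinned torus -/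
theorem torus_tail {ρ : ℝ → ℝ} (hρ : EdgeWeight ρ) :
    ∃ C : ℝ, 0 < C ∧ ∀ (M : ℕ) [NeZero M], 2 ≤ M → ∀ x : ZMod M × ZMod M,
      pin 0 (wT ρ M) {f | C * Real.log M ^ (3 / 2 : ℝ) < f x} ≤
        (1 / 5) * pin 0 (wT ρ M) Set.univ := by
  obtain ⟨C₁, hC₁, H₁⟩ := bad_small hρ
  obtain ⟨C₂, hC₂, H₂⟩ := hyp_torus hρ
  have hl2 : 0 < Real.log 2 := Real.log_pos (by norm_num)
  set q := Real.log 2 ^ (3 / 2 : ℝ) with hq
  have hq0 : 0 < q := Real.rpow_pos_of_pos hl2 _
  set r := Real.log 2 ^ (1 / 2 : ℝ) with hr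
  have hr0 : 0 < r := Real.rpow_pos_of_pos hl2 _
  refine ⟨2 * (C₁ / r + C₂) + 3 / q, by positivity, fun M _ hM x => ?_⟩
  have hlog : Real.log 2 ≤ Real.log M := Real.log_le_log (by norm_num) (by exact_mod_cast hM)
  have hlog0 : 0 < Real.log M := hl2.trans_le hlog
  set L := Real.log M ^ (3 / 2 : ℝ) with hL
  have hqL : q ≤ L := Real.rpow_le_rpow hl2.le hlog (by norm_num)
  have hL0 : 0 < L := hq0.trans_le hqL
  have hlogL : Real.log M ≤ L / r := by
    rw [le_div_iff₀ hr0]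
    have h1 : r ≤ Real.log M ^ (1 / 2 : ℝ) := Real.rpow_le_rpow hl2.le hlog (by norm_num)
    calc Real.log M * r ≤ Real.log M * Real.log M ^ (1 / 2 : ℝ) := by gcongr
      _ = Real.log M ^ (1 : ℝ) * Real.log M ^ (1 / 2 : ℝ) := by rw [Real.rpow_one]
      _ = L := by rw [← Real.rpow_add hlog0]; norm_num [hL]
  set b := C₁ * Real.log M with hb
  have hb0 : 0 ≤ b := by positivity
  set s := b + C₂ * L with hs
  have hbs : b ≤ s := by rw [hs]; nlinarith
  have hH := H₂ M hM b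
  obtain ⟨P, hP1, hP2⟩ := torus (w := wT ρ M) (wT_nice' hρ).meas (wT_inv ρ) (wT_lsm hρ)
    (wT_nice' hρ).even (wT_rot hρ.even) hb0 hbs hH x
  have hbad := H₁ M hM
  set Z := pin 0 (wT ρ M) Set.univ with hZ
  have hP : P ≤ 1 / 22 * Z := by
    refine sqrt_step (hP1.trans ?_)
    gcongr
  have hle : 2 * s + 3 ≤ (2 * (C₁ / r + C₂) + 3 / q) * L := by
    have h1 : b ≤ C₁ / r * L := by
      rw [hb, div_mul_eq_mul_div, mul_div_assoc]
      gcongr
    have h2 : 3 ≤ 3 / q * L := by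
      rw [div_mul_eq_mul_div, le_div_iff₀ hq0]
      nlinarith
    rw [hs]
    nlinarith
  calc pin 0 (wT ρ M) {f | (2 * (C₁ / r + C₂) + 3 / q) * L < f x}
      ≤ pin 0 (wT ρ M) {f | 2 * s + 3 < f x} := pin_congr fun f _ hf => by
        have hf' : (2 * (C₁ / r + C₂) + 3 / q) * L < f x := hf
        show 2 * s + 3 < f x
        linarith
    _ ≤ P + P + (1 / 1000 * Z + pin 0 (wT ρ M) (bad M b)) := hP2
    _ ≤ 1 / 22 * Z + 1 / 22 * Z + (1 / 1000 * Z + 1 / 1000 * Z) := by gcongr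
    _ = (1 / 22 + 1 / 22 + (1 / 1000 + 1 / 1000)) * Z := by ring
    _ ≤ 1 / 5 * Z := by
        gcongr
        have e1 : (1 / 22 : ℝ≥0∞) = ENNReal.ofReal (1 / 22) := by
          rw [ENNReal.ofReal_div_of_pos (by norm_num), ENNReal.ofReal_one, ENNReal.ofReal_ofNat]
        have e2 : (1 / 1000 : ℝ≥0∞) = ENNReal.ofReal (1 / 1000) := by
          rw [ENNReal.ofReal_div_of_pos (by norm_num), ENNReal.ofReal_one, ENNReal.ofReal_ofNat]
        have e3 : (1 / 5 : ℝ≥0∞) = ENNReal.ofReal (1 / 5) := by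
          rw [ENNReal.ofReal_div_of_pos (by norm_num), ENNReal.ofReal_one, ENNReal.ofReal_ofNat]
        rw [e1, e2, e3, ← ENNReal.ofReal_add (by norm_num) (by norm_num),
          ← ENNReal.ofReal_add (by norm_num) (by norm_num),
          ← ENNReal.ofReal_add (by norm_num) (by norm_num)]
        exact ENNReal.ofReal_le_ofReal (by norm_num)

end Pool.Agent.HM
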