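import Pool.Agent.Lib_helper14.HM.T2
import Pool.Agent.Lib_helper69.HM.LC
import Pool.Agent.Lib_helper69.HM.Z1
import Pool.Agent.Lib_helper69.HM.Z2
import Pool.Agent.Lib_helper69.HM.G1

/-!
# T3: partition function of the pinned torus, second moment and tails of the height
-/

set_option autoImplicit false

open MeasureTheory Finset HMT
open scoped ENNReal

namespace Pool.Agent.HM

variable {M : ℕ} [NeZero M]

/-- the vertices other than the pinned one -/
abbrev PV (M : ℕ) [NeZero M] : Finset (ZMod M × ZMod M) := Finset.univ.erase 0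

theorem wT_wt (hM : 2 ≤ M) (ρ : ℝ → ℝ) (f : ZMod M × ZMod M → ℝ) :
    wT ρ M f = wt ρ 0 (sT M) (PV M) f := by
  have : Fact (1 < M) := ⟨by omega⟩
  have hE : edges (sT M) (PV M) = Finset.univ := by
    ext p
    simp only [mem_edges, Finset.mem_erase, Finset.mem_univ, and_true, ne_eq, iff_true]
    by_contra hcon
    push Not at hcon
    obtain ⟨h1, h2⟩ := hcon
    rw [h1, zero_add] at h2
    rcases p with ⟨v, i⟩
    cases i <;> simp [sT] at h2
  rw [wT_eq]
  unfold wt
  rw [hE]
  simp

theorem pinZ_pos {ρ : ℝ → ℝ} (hρ : EdgeWeight ρ) (hM : 2 ≤ M) : 0 < lm (PV M) (wT ρ M) 0 := by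
  have h := lm_wt_pos_const hρ 0 (sT M) (PV M) 0
  have e : wT ρ M = wt ρ 0 (sT M) (PV M) := funext (wT_wt hM ρ)
  rw [e]
  exact h

/-- the parent in the spanning tree of the torus -/
def par (v : ZMod M × ZMod M) : ZMod M × ZMod M :=
  if v.1 = 0 then (v.1, v.2 - 1) else (v.1 - 1, v.2)

theorem val_sub_one {a : ZMod M} (ha : a ≠ 0) : (a - 1).val < a.val := by
  have hpos : 0 < a.val := Nat.pos_of_ne_zero (by rwa [ne_eq, ZMod.val_eq_zero])
  have e : a - 1 = ((a.val - 1 : ℕ) : ZMod M) := by
    rw [Nat.cast_sub hpos]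
    simp
  rw [e, ZMod.val_cast_of_lt (by have := ZMod.val_lt a; omega)]
  omega

theorem pinZ_fin {ρ : ℝ → ℝ} (hρ : EdgeWeight ρ) : lm (PV M) (wT ρ M) 0 < ∞ := by
  have hr : ∀ x ∈ PV M, (fun v : ZMod M × ZMod M => v.1.val + v.2.val) (par x) <
      (fun v : ZMod M × ZMod M => v.1.val + v.2.val) x := by
    intro x hx
    have hx0 : x ≠ 0 := (Finset.mem_erase.1 hx).1
    simp only [par]
    split_ifs with h
    · have h2 : x.2 ≠ 0 := fun h2 => hx0 (by ext <;> simp [h, h2])
      have := val_sub_one h2
      simp only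
      omega
    · have := val_sub_one h
      simp only
      omega
  have key := lm_tree hρ (PV M) par (fun v => v.1.val + v.2.val) hr 0
  have hIt : ∫⁻ t, ENNReal.ofReal (ρ t) < ∞ := by
    have := hρ.moment_lt_top 0
    simpa only [pow_zero, one_mul] using this
  have hle : lm (PV M) (wT ρ M) 0 ≤
      lm (PV M) (fun f => ∏ x ∈ PV M, ENNReal.ofReal (ρ (f x - f (par x)))) 0 := by
    refine lmarginal_mono (fun f => ?_) 0
    -- each vertex owns one edge
    rw [wT_eq]
    set ed : ZMod M × ZMod M → (ZMod M × ZMod M) × Bool :=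
      fun v => (par v, decide (v.1 = 0)) with hed
    have hinj : Function.Injective ed := by
      intro a b hab
      simp only [hed, par, Prod.mk.injEq] at hab
      obtain ⟨h1, h2⟩ := hab
      by_cases ha : a.1 = 0
      · have hb : b.1 = 0 := by simpa [ha] using h2
        simp only [ha, hb, if_true, Prod.mk.injEq, true_and, sub_left_inj] at h1
        ext
        · rw [ha, hb]
        · exact h1
      · have hb : b.1 ≠ 0 := by simpa [ha] using h2
        simp only [ha, hb, if_false, Prod.mk.injEq, sub_left_inj] at h1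
        ext
        · exact h1.1
        · exact h1.2
    have hval : ∀ v : ZMod M × ZMod M, par v + sT M (decide (v.1 = 0)) = v := by
      intro v
      by_cases h : v.1 = 0
      · ext <;> simp [par, sT, h]
      · ext <;> simp [par, sT, h]
    have e : ∏ x ∈ PV M, ENNReal.ofReal (ρ (f x - f (par x))) =
        ∏ p ∈ (PV M).image ed, ENNReal.ofReal (ρ (f (p.1 + sT M p.2) - f p.1)) := by
      rw [Finset.prod_image (fun a _ b _ h => hinj h)]
      refine Finset.prod_congr rfl fun x _ => ?_
      simp only [hed, hval]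
    rw [e]
    exact Finset.prod_le_prod_of_subset_of_le_one' (Finset.subset_univ _)
      (fun p _ _ => ofReal_le_one hρ _)
  refine lt_of_le_of_lt (hle.trans (le_of_eq key)) ?_
  exact ENNReal.pow_lt_top hIt

end Pool.Agent.HM
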