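import Pool.Agent.Lib_helper14.HM.T3
import Pool.Agent.Lib_helper69.HM.LC2

/-!
# T4: the height on the pinned torus: second moment and exponential tails
-/

set_option autoImplicit false

open MeasureTheory Finset HMT
open scoped ENNReal

namespace Pool.Agent.HM

variable {M : ℕ} [NeZero M]

/-- the field on the torus pinned at `0` -/
noncomputable abbrev gam (ρ : ℝ → ℝ) (M : ℕ) [NeZero M] : Measure (ZMod M × ZMod M → ℝ) :=
  gib (wT ρ M) (PV M) 0

theorem gam_symLC {ρ : ℝ → ℝ} (hρ : EdgeWeight ρ) (hM : 2 ≤ M) (x : ZMod M × ZMod M) :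
    SymLC ((gam ρ M).map (fun f : ZMod M × ZMod M → ℝ => f x)) := by
  have := gib_symLC (wT_nice' (M := M) hρ) (PV M) (pinZ_pos hρ hM).ne' (pinZ_fin hρ).ne x x 0
  simpa only [zero_mul, sub_zero] using this

theorem gam_prob {ρ : ℝ → ℝ} (hρ : EdgeWeight ρ) (hM : 2 ≤ M) : IsProbabilityMeasure (gam ρ M) :=
  gib_prob (wT_nice' hρ).meas _ _ (pinZ_pos hρ hM).ne' (pinZ_fin hρ).ne

/-- the tail at scale `(log M) ^ (3 / 2)` -/
theorem gam_tail {ρ : ℝ → ℝ} (hρ : EdgeWeight ρ) :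
    ∃ C : ℝ, 0 < C ∧ ∀ (M : ℕ) [NeZero M], 2 ≤ M → ∀ x : ZMod M × ZMod M,
      ((gam ρ M).map (fun f : ZMod M × ZMod M → ℝ => f x)) (Set.Ici (C * Real.log M ^ (3 / 2 : ℝ))) ≤
        1 / 5 := by
  obtain ⟨C, hC, H⟩ := torus_tail hρ
  refine ⟨2 * C, by positivity, fun M _ hM x => ?_⟩
  have hlog0 : 0 < Real.log M := Real.log_pos (by exact_mod_cast (by omega : 1 < M))
  set L := Real.log M ^ (3 / 2 : ℝ) with hL
  have hL0 : 0 < L := Real.rpow_pos_of_pos hlog0 _
  have hx : Measurable fun f : ZMod M × ZMod M → ℝ => f x := measurable_pi_apply x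
  have hZ0 := (pinZ_pos hρ hM).ne'
  have hZ1 := (pinZ_fin (M := M) hρ).ne
  rw [Measure.map_apply hx measurableSet_Ici, gib_apply (wT_nice' hρ).meas _ _ (hx measurableSet_Ici)]
  have h1 : lm (PV M) (Set.indicator ((fun f : ZMod M × ZMod M → ℝ => f x) ⁻¹' Set.Ici (2 * C * L))
      (wT ρ M)) 0 ≤ 1 / 5 * lm (PV M) (wT ρ M) 0 := by
    have e1 : pin 0 (wT ρ M) Set.univ = lm (PV M) (wT ρ M) 0 := by
      unfold pin lm
      congr 1
      funext f
      rw [Set.indicator_of_mem (Set.mem_univ f)]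
      simp
    rw [← e1]
    refine le_trans (lmarginal_mono (fun f => ?_) 0) (H M hM x)
    by_cases hf : f ∈ (fun f : ZMod M × ZMod M → ℝ => f x) ⁻¹' Set.Ici (2 * C * L)
    · have hf' : f ∈ {f : ZMod M × ZMod M → ℝ | C * L < f x} := by
        have h2 : 2 * C * L ≤ f x := hf
        show C * L < f x
        have : 0 < C * L := by positivity
        linarith
      rw [Set.indicator_of_mem hf, Set.indicator_of_mem hf']
      simp
    · rw [Set.indicator_of_notMem hf]; exact bot_le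
  calc (lm (PV M) (wT ρ M) 0)⁻¹ * lm (PV M) (Set.indicator
        ((fun f : ZMod M × ZMod M → ℝ => f x) ⁻¹' Set.Ici (2 * C * L)) (wT ρ M)) 0
      ≤ (lm (PV M) (wT ρ M) 0)⁻¹ * (1 / 5 * lm (PV M) (wT ρ M) 0) := by gcongr
    _ = 1 / 5 * ((lm (PV M) (wT ρ M) 0)⁻¹ * lm (PV M) (wT ρ M) 0) := by ring
    _ = 1 / 5 := by rw [ENNReal.inv_mul_cancel hZ0 hZ1, mul_one]

/-- second moment -/
theorem gam_second {ρ : ℝ → ℝ} (hρ : EdgeWeight ρ) :
    ∃ C : ℝ, 0 < C ∧ ∀ (M : ℕ) [NeZero M], 2 ≤ M → ∀ x : ZMod M × ZMod M,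
      ∫⁻ f, ENNReal.ofReal (f x ^ 2) ∂gam ρ M ≤ ENNReal.ofReal (C * Real.log M ^ 3) ∧
      ∀ k : ℕ, gam ρ M {f | k * (C * Real.log M ^ (3 / 2 : ℝ)) ≤ |f x|} ≤ 2 * (2 / 5) ^ k := by
  obtain ⟨C, hC, H⟩ := gam_tail hρ
  refine ⟨100 * C ^ 2 + C, by positivity, fun M _ hM x => ?_⟩
  have hlog0 : 0 < Real.log M := Real.log_pos (by exact_mod_cast (by omega : 1 < M))
  set L := Real.log M ^ (3 / 2 : ℝ) with hL
  have hL0 : 0 < L := Real.rpow_pos_of_pos hlog0 _
  have hx : Measurable fun f : ZMod M × ZMod M → ℝ => f x := measurable_pi_apply x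
  have hs := gam_symLC hρ hM x
  have hLL : L ^ 2 = Real.log M ^ 3 := by
    rw [hL, ← Real.rpow_natCast, ← Real.rpow_mul hlog0.le, ← Real.rpow_natCast (Real.log M) 3]
    norm_num
  refine ⟨?_, fun k => ?_⟩
  · have h1 := hs.second (a := C * L) (by positivity) (H M hM x)
    rw [lintegral_map (by fun_prop) hx] at h1
    refine h1.trans (ENNReal.ofReal_le_ofReal ?_)
    rw [mul_pow, hLL, add_mul]
    have : 0 < C * Real.log M ^ 3 := by positivity
    nlinarith
  · have h1 := hs.tail_of (a := C * L) (by positivity) (H M hM x) k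
    have h2 := hs.symm (k * (C * L))
    have hle : k * (C * L) ≤ k * ((100 * C ^ 2 + C) * L) := by
      have : 0 ≤ (k : ℝ) := Nat.cast_nonneg k
      gcongr
      nlinarith [sq_nonneg C]
    have hsub : {f : ZMod M × ZMod M → ℝ | k * ((100 * C ^ 2 + C) * L) ≤ |f x|} ⊆
        (fun f : ZMod M × ZMod M → ℝ => f x) ⁻¹' Set.Ici (k * (C * L)) ∪
        (fun f : ZMod M × ZMod M → ℝ => f x) ⁻¹' Set.Iic (-(k * (C * L))) := by
      intro f hf
      have hf' : k * ((100 * C ^ 2 + C) * L) ≤ |f x| := hf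
      rcases le_abs'.1 (hle.trans hf') with h | h
      · right; exact h
      · left; exact h
    refine (measure_mono hsub).trans ((measure_union_le _ _).trans ?_)
    rw [← Measure.map_apply hx measurableSet_Ici, ← Measure.map_apply hx measurableSet_Iic, ← h2,
      two_mul]
    exact add_le_add h1 h1

end Pool.Agent.HM
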