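import Pool.Agent.Lib_helper14.HM.T4

/-!
# T5: the pinned Gibbs measure of the problem
-/

set_option autoImplicit false

open MeasureTheory Finset HMT
open scoped ENNReal

namespace Pool.Agent.HM

variable {M : ℕ} [NeZero M]

/-- Lebesgue measure at the vertices other than `0`, Dirac measure at the vertex `0` -/
noncomputable def vm (M : ℕ) (v : ZMod M × ZMod M) : Measure ℝ :=
  open Classical in if v = 0 then Measure.dirac 0 else volume

instance (v : ZMod M × ZMod M) : SigmaFinite (vm M v) := by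
  unfold vm
  split_ifs <;> infer_instance

/-- integrals with respect to the pinned Lebesgue measure -/
theorem lintegral_vm {F : (ZMod M × ZMod M → ℝ) → ℝ≥0∞} (hF : Measurable F) :
    ∫⁻ φ, F φ ∂Measure.pi (vm M) = lm (PV M) F 0 := by
  rw [lintegral_eq_lmarginal_univ (μ := vm M) 0, lmarginal_erase _ hF (Finset.mem_univ 0)]
  have h0 : vm M 0 = Measure.dirac 0 := by simp [vm]
  rw [h0, lintegral_dirac']
  · have e : Function.update (0 : ZMod M × ZMod M → ℝ) 0 0 = 0 := by
      ext v
      by_cases hv : v = 0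
      · subst hv; simp
      · simp [hv]
    rw [e]
    unfold lm lmarginal
    have e2 : (fun i : (Finset.univ.erase 0 : Finset (ZMod M × ZMod M)) => vm M i) =
        fun _ => volume := by
      funext i
      have : (i : ZMod M × ZMod M) ≠ 0 := (Finset.mem_erase.1 i.2).1
      simp [vm, this]
    rw [e2]
  · exact (hF.lmarginal _).comp (measurable_update 0)

/-- the pinned field as a normalised density -/
theorem gam_eq {ρ : ℝ → ℝ} (hρ : EdgeWeight ρ) :
    gam ρ M = (∫⁻ φ, wT ρ M φ ∂Measure.pi (vm M))⁻¹ • (Measure.pi (vm M)).withDensity (wT ρ M) := by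
  have mw := (wT_nice' (M := M) hρ).meas
  refine Measure.ext_of_lintegral _ fun F hF => ?_
  rw [lintegral_gib mw _ _ hF, lintegral_vm mw, lintegral_smul_measure,
    lintegral_withDensity_eq_lintegral_mul _ mw hF]
  have e : (wT ρ M * F) = fun f => F f * wT ρ M f := by
    funext f; simp only [Pi.mul_apply]; ring
  have mF : Measurable fun f => F f * wT ρ M f := hF.mul mw
  rw [e, lintegral_vm mF]
  rfl

/-- symmetry of the pinned field -/
theorem gam_neg {ρ : ℝ → ℝ} (hρ : EdgeWeight ρ) : (gam ρ M).map (fun f => -f) = gam ρ M := by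
  have := gib_map_neg (wT_nice' (M := M) hρ) (PV M) 0
  rwa [neg_zero] at this

/-- **Main theorem, normalised form.** -/
theorem main {ρ : ℝ → ℝ} (hρ : EdgeWeight ρ) :
    ∃ C : ℝ, 0 < C ∧ ∀ (M : ℕ) [NeZero M], 2 ≤ M → IsProbabilityMeasure (gam ρ M) ∧
      ∀ x : ZMod M × ZMod M, MemLp (fun f : ZMod M × ZMod M → ℝ => f x) 2 (gam ρ M) ∧
        ∫ f, f x ∂gam ρ M = 0 ∧
        ProbabilityTheory.variance (fun f : ZMod M × ZMod M → ℝ => f x) (gam ρ M) ≤
          C * Real.log M ^ 3 ∧
        ∀ k : ℕ, gam ρ M {f | k * (C * Real.log M ^ (3 / 2 : ℝ)) ≤ |f x|} ≤ 2 * (2 / 5) ^ k := by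
  obtain ⟨C, hC, H⟩ := gam_second hρ
  refine ⟨C, hC, fun M _ hM => ⟨gam_prob hρ hM, fun x => ?_⟩⟩
  have hprob := gam_prob (M := M) hρ hM
  obtain ⟨h2, ht⟩ := H M hM x
  have hx : Measurable fun f : ZMod M × ZMod M → ℝ => f x := measurable_pi_apply x
  have hlog0 : 0 < Real.log M := Real.log_pos (by exact_mod_cast (by omega : 1 < M))
  have hLp : MemLp (fun f : ZMod M × ZMod M → ℝ => f x) 2 (gam ρ M) := by
    refine (memLp_two_iff_integrable_sq hx.aestronglyMeasurable).2 ?_
    refine ⟨(hx.pow_const 2).aestronglyMeasurable, ?_⟩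
    rw [hasFiniteIntegral_iff_ofReal (Filter.Eventually.of_forall fun f => by positivity)]
    exact h2.trans_lt ENNReal.ofReal_lt_top
  have hmean : ∫ f, f x ∂gam ρ M = 0 := by
    have h1 : ∫ f, f x ∂gam ρ M = ∫ f, -(f x) ∂gam ρ M := by
      conv_lhs => rw [← gam_neg (M := M) hρ]
      rw [integral_map measurable_neg.aemeasurable hx.aestronglyMeasurable]
      rfl
    rw [integral_neg] at h1
    linarith
  refine ⟨hLp, hmean, ?_, ht⟩
  rw [ProbabilityTheory.variance_eq_sub hLp, hmean]
  have h3 : ∫ f, (f x) ^ 2 ∂gam ρ M ≤ C * Real.log M ^ 3 := by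
    rw [integral_eq_lintegral_of_nonneg_ae (Filter.Eventually.of_forall fun f => by positivity)
      (hx.pow_const 2).aestronglyMeasurable]
    exact ENNReal.toReal_le_of_le_ofReal (by positivity) h2
  simpa using h3

end Pool.Agent.HM
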